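import Mathlib

set_option autoImplicit false

namespace Pool.Agent.Results.MP_99bfa4_al.Counterexample

open MeasureTheory Topology Matrix
open scoped ContDiff ENNReal ComplexConjugate

set_option linter.unusedSectionVars false

section General

/-- The group `GL(n, ℂ)` of invertible complex matrices. -/
abbrev GLn (n : Type) [Fintype n] [DecidableEq n] : Type := (Matrix n n ℂ)ˣ

variable {n : Type} [Fintype n] [DecidableEq n] {G : Type} [Group G] [TopologicalSpace G]

/-- `G`, embedded by `ρ` as a closed subgroup of `GL(n, ℂ)`, is a real reductive linear Lie group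
and `H` is reductive in `G`: both are closed, have finitely many components and, after a common
conjugation, are stable under conjugate transpose. -/
structure IsReductivePair (ρ : G →* GLn n) (H : Subgroup G) : Prop where
  closed_G : IsClosedEmbedding ρ
  closed_H : IsClosed (H : Set G)
  finite_G : Finite (ConnectedComponents G)
  finite_H : Finite (ConnectedComponents H)
  selfadjoint : ∃ c : GLn n,
    (∀ g : G, ∃ g' : G, (c * ρ g' * c⁻¹ : GLn n).val = (c * ρ g * c⁻¹ : GLn n).valᴴ) ∧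
    (∀ h ∈ H, ∃ h' ∈ H, (c * ρ h' * c⁻¹ : GLn n).val = (c * ρ h * c⁻¹ : GLn n).valᴴ)

/-- The homogeneous space `X = G/H`. -/
def HomSpace (H : Subgroup G) : Type := G ⧸ H

variable (ρ : G →* GLn n) (H : Subgroup G)

instance : TopologicalSpace (HomSpace H) := QuotientGroup.instTopologicalSpace H
instance : MulAction G (HomSpace H) := MulAction.quotient G H
instance : MeasurableSpace (HomSpace H) := borel _
instance : BorelSpace (HomSpace H) := ⟨rfl⟩

/-- The projection `G → G/H`. -/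
def proj (g : G) : HomSpace H := QuotientGroup.mk g

/-- The matrix entries of `g`, a point of the real vector space `n → n → ℂ`. -/
def ent (g : G) : n → n → ℂ := fun i j => (ρ g).val i j

/-- `f` is a smooth function on `G/H`: its pull back to `G` is locally the restriction of a smooth
function of the matrix entries. -/
def IsSmooth (f : HomSpace H → ℂ) : Prop :=
  ∀ g : G, ∃ U : Set (n → n → ℂ), IsOpen U ∧ ent ρ g ∈ U ∧ ∃ F : (n → n → ℂ) → ℂ,
    ContDiffOn ℝ ∞ F U ∧ ∀ g' : G, ent ρ g' ∈ U → f (proj H g') = F (ent ρ g')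

/-- The algebra `C^∞(G/H)`. -/
def smoothAlg : Subalgebra ℂ (HomSpace H → ℂ) where
  carrier := {f | IsSmooth ρ H f}
  mul_mem' := by
    rintro a b ha hb g
    obtain ⟨U, hU, hgU, F, hF, hfF⟩ := ha g
    obtain ⟨V, hV, hgV, K, hK, hfK⟩ := hb g
    refine ⟨U ∩ V, hU.inter hV, ⟨hgU, hgV⟩, fun x => F x * K x,
      (hF.mono Set.inter_subset_left).mul (hK.mono Set.inter_subset_right), fun g' hg' => ?_⟩
    simp only [Pi.mul_apply]
    rw [hfF g' hg'.1, hfK g' hg'.2]
  add_mem' := by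
    rintro a b ha hb g
    obtain ⟨U, hU, hgU, F, hF, hfF⟩ := ha g
    obtain ⟨V, hV, hgV, K, hK, hfK⟩ := hb g
    refine ⟨U ∩ V, hU.inter hV, ⟨hgU, hgV⟩, fun x => F x + K x,
      (hF.mono Set.inter_subset_left).add (hK.mono Set.inter_subset_right), fun g' hg' => ?_⟩
    simp only [Pi.add_apply]
    rw [hfF g' hg'.1, hfK g' hg'.2]
  algebraMap_mem' := fun r g => ⟨Set.univ, isOpen_univ, Set.mem_univ _, fun _ => r,
    contDiffOn_const, fun _ _ => rfl⟩

/-- The algebra `C^∞(G/H)`, as a type. -/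
def Smooth : Type := smoothAlg ρ H

instance : CommRing (Smooth ρ H) := Subalgebra.toCommRing (smoothAlg ρ H)
instance : Algebra ℂ (Smooth ρ H) := Subalgebra.algebra (smoothAlg ρ H)

variable {ρ H}

/-- The function on `G/H` given by an element of `C^∞(G/H)`. -/
def Smooth.fn (u : Smooth ρ H) : HomSpace H → ℂ := Subtype.val u

variable (ρ H)

/-- The linear endomorphisms of `C^∞(G/H)`. -/
abbrev Op : Type := Module.End ℂ (Smooth ρ H)

variable {ρ H}

/-- The commutator `[D, f]` of an operator `D` with the multiplication by `f`. -/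
def comm (D : Op ρ H) (f : Smooth ρ H) : Op ρ H where
  toFun := fun u => D (f * u) - f * D u
  map_add' := fun u v => by
    rw [mul_add, map_add, map_add, mul_add, add_sub_add_comm]
  map_smul' := fun c u => by
    rw [mul_smul_comm, map_smul, map_smul, mul_smul_comm, RingHom.id_apply, smul_sub]

/-- `D` is a differential operator of order at most `k` on `G/H`. -/
def OrderLE : ℕ → Op ρ H → Prop
  | 0, D => ∀ f, comm D f = 0
  | k + 1, D => ∀ f, OrderLE k (comm D f)

/-- `D` is a `G`-invariant differential operator on `G/H`. -/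
def IsInvariantDiffOp (D : Op ρ H) : Prop :=
  (∃ k, OrderLE k D) ∧ ∀ (g : G) (f f' : Smooth ρ H),
    (∀ x, f'.fn x = f.fn (g⁻¹ • x)) → ∀ x, (D f').fn x = (D f).fn (g⁻¹ • x)

omit [TopologicalSpace G] in
theorem comm_apply (D : Op ρ H) (f u : Smooth ρ H) :
    comm D f u = D (f * u) - f * D u := rfl

omit [TopologicalSpace G] in
theorem comm_add (D E : Op ρ H) (f : Smooth ρ H) :
    comm (D + E) f = comm D f + comm E f := by
  apply LinearMap.ext
  intro u
  simp only [comm_apply, LinearMap.add_apply]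
  rw [mul_add, add_sub_add_comm]

omit [TopologicalSpace G] in
theorem comm_zero (f : Smooth ρ H) : comm (0 : Op ρ H) f = 0 := by
  apply LinearMap.ext
  intro u
  simp only [comm_apply, LinearMap.zero_apply, mul_zero, sub_self]

omit [TopologicalSpace G] in
theorem comm_mul (D E : Op ρ H) (f : Smooth ρ H) :
    comm (D * E) f = D * comm E f + comm D f * E := by
  apply LinearMap.ext
  intro u
  simp only [comm_apply, LinearMap.add_apply, Module.End.mul_apply, map_sub]
  abel

theorem OrderLE.add {k : ℕ} : ∀ {D E : Op ρ H}, OrderLE k D → OrderLE k E → OrderLE k (D + E) := by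
  induction k with
  | zero =>
    intro D E hD hE f
    rw [comm_add, hD f, hE f, add_zero]
  | succ k ih =>
    intro D E hD hE f
    rw [comm_add]
    exact ih (hD f) (hE f)

theorem OrderLE.zero (k : ℕ) : OrderLE k (0 : Op ρ H) := by
  induction k with
  | zero => intro f; exact comm_zero f
  | succ k ih => intro f; rw [comm_zero]; exact ih

theorem OrderLE.succ {k : ℕ} : ∀ {D : Op ρ H}, OrderLE k D → OrderLE (k + 1) D := by
  induction k with
  | zero => intro D hD f; rw [hD f]; exact OrderLE.zero 0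
  | succ k ih => intro D hD f; exact ih (hD f)

theorem OrderLE.mono {k l : ℕ} (hkl : k ≤ l) {D : Op ρ H} (hD : OrderLE k D) : OrderLE l D := by
  induction hkl with
  | refl => exact hD
  | step _ ih => exact ih.succ

theorem OrderLE.mul (s : ℕ) : ∀ {k l : ℕ}, k + l ≤ s → ∀ {D E : Op ρ H}, OrderLE k D → OrderLE l E →
    OrderLE (k + l) (D * E) := by
  induction s with
  | zero =>
    intro k l hkl D E hD hE
    obtain ⟨rfl, rfl⟩ : k = 0 ∧ l = 0 := by omega
    intro f
    rw [comm_mul, hD f, hE f, mul_zero, zero_mul, add_zero]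
  | succ s ih =>
    intro k l hkl D E hD hE
    rcases k with _ | k
    · rcases l with _ | l
      · intro f
        rw [comm_mul, hD f, hE f, mul_zero, zero_mul, add_zero]
      · rw [show 0 + (l + 1) = (0 + l) + 1 by omega]
        intro f
        rw [comm_mul, hD f, zero_mul, add_zero]
        exact ih (k := 0) (l := l) (by omega) hD (hE f)
    · rcases l with _ | l
      · intro f
        rw [comm_mul, hE f, mul_zero, zero_add]
        exact ih (k := k) (l := 0) (by omega) (hD f) hE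
      · have h0 : k + 1 + (l + 1) = (k + l + 1) + 1 := by omega
        rw [h0]
        intro f
        have h1 := ih (k := k + 1) (l := l) (by omega) hD (hE f)
        have h2 := ih (k := k) (l := l + 1) (by omega) (hD f) hE
        rw [comm_mul]
        refine OrderLE.add ?_ ?_
        · exact h1.mono (by omega)
        · exact h2.mono (by omega)

variable (ρ H)

/-- The algebra `𝔻(G/H)` of `G`-invariant differential operators on `G/H`. -/
def DInv : Subalgebra ℂ (Op ρ H) where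
  carrier := {D | IsInvariantDiffOp D}
  mul_mem' := by
    rintro D E ⟨⟨k, hk⟩, hD⟩ ⟨⟨l, hl⟩, hE⟩
    exact ⟨⟨k + l, OrderLE.mul _ le_rfl hk hl⟩, fun g f f' h => hD g _ _ (hE g f f' h)⟩
  add_mem' := by
    rintro D E ⟨⟨k, hk⟩, hD⟩ ⟨⟨l, hl⟩, hE⟩
    refine ⟨⟨k + l, (hk.mono (by omega)).add (hl.mono (by omega))⟩, fun g f f' h x => ?_⟩
    change (D f').fn x + (E f').fn x = (D f).fn (g⁻¹ • x) + (E f).fn (g⁻¹ • x)
    rw [hD g f f' h, hE g f f' h]
  algebraMap_mem' := by
    intro r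
    refine ⟨⟨0, fun f => ?_⟩, fun g f f' h x => ?_⟩
    · apply LinearMap.ext
      intro u
      simp only [comm_apply, Module.algebraMap_end_apply, mul_smul_comm, sub_self,
        LinearMap.zero_apply]
    · change r • f'.fn x = r • f.fn (g⁻¹ • x)
      rw [h]

/-- The algebra `𝔻(G/H)`, as a type. -/
def DAlg : Type := DInv ρ H

instance : Semiring (DAlg ρ H) := Subalgebra.toSemiring (DInv ρ H)
instance : Algebra ℂ (DAlg ρ H) := Subalgebra.algebra (DInv ρ H)

/-- The characters of `𝔻(G/H)`, i.e. the algebra homomorphisms `𝔻(G/H) → ℂ`. -/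
abbrev Chr : Type := DAlg ρ H →ₐ[ℂ] ℂ

variable {ρ H}

/-- An invariant differential operator as an element of `𝔻(G/H)`. -/
def DAlg.of (D : Op ρ H) (hD : IsInvariantDiffOp D) : DAlg ρ H := ⟨D, hD⟩

/-- `μ` is a `G`-invariant Radon measure on `G/H`. -/
structure IsInvariantRadon (μ : Measure (HomSpace H)) : Prop where
  ne_zero : μ ≠ 0
  lt_top : ∀ K : Set (HomSpace H), IsCompact K → μ K < ⊤
  regular : μ.Regular
  invariant : ∀ (g : G) (s : Set (HomSpace H)), MeasurableSet s →
    μ ((fun x => g • x) ⁻¹' s) = μ s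

variable (H)

/-- The subgroup `Δ` of `G` acts properly discontinuously and freely on `G/H`. -/
def ProperFree (Δ : Subgroup G) : Prop :=
  (∀ K : Set (HomSpace H), IsCompact K →
    {γ : G | γ ∈ Δ ∧ ((fun x => γ • x) '' K ∩ K).Nonempty}.Finite) ∧
  ∀ γ ∈ Δ, ∀ x : HomSpace H, γ • x = x → γ = 1

/-- A discontinuous group for `G/H`. -/
def IsDiscontinuousGroup (Δ : Subgroup G) : Prop := DiscreteTopology Δ ∧ ProperFree H Δ

variable {Γ : Type} [Group Γ]

/-- `Γ` is stable under small deformations (for the action on `G/H`); the topology on `Γ → G` is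
that of pointwise convergence. -/
def StableUnderSmallDeformations (ι : Γ →* G) : Prop :=
  ∃ U ∈ 𝓝 (fun γ => ι γ : Γ → G), ∀ φ : Γ →* G, (fun γ => φ γ : Γ → G) ∈ U → ProperFree H φ.range

/-- `Γ` has non-trivial continuous deformations. -/
def NontrivialDeformations (ι : Γ →* G) : Prop :=
  ∃ φ : unitInterval → (Γ →* G), (∀ γ, Continuous fun t => φ t γ) ∧ φ 0 = ι ∧
    ∃ t, ¬ ∃ g : G, ∀ γ, φ t γ = g * ι γ * g⁻¹

variable {H}

/-- `f` is square integrable modulo `Δ`, i.e. the `Δ`-invariant function `f` is square integrable on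
`Δ \ G / H` with respect to the measure induced by `μ`. -/
def SqIntegrableMod (μ : Measure (HomSpace H)) (Δ : Subgroup G) (f : HomSpace H → ℂ) : Prop :=
  ∃ F : Set (HomSpace H), IsFundamentalDomain Δ F μ ∧ ∫⁻ x in F, ‖f x‖ₑ ^ 2 ∂μ < ⊤

/-- `ψ' = Dᵗψ`, where `Dᵗ` is the transpose of the operator `D`. -/
def IsTranspose (μ : Measure (HomSpace H)) (D : Op ρ H) (ψ ψ' : Smooth ρ H) : Prop :=
  ∀ u : Smooth ρ H, ∫ x, ψ'.fn x * u.fn x ∂μ = ∫ x, ψ.fn x * (D u).fn x ∂μ

/-- `f` satisfies `D f = λ(D) f` weakly for all invariant differential operators `D`: here `ψ` runs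
over the test functions and `ψ' = Dᵗψ`. -/
def WeakEigen (μ : Measure (HomSpace H)) (lam : Chr ρ H) (f : HomSpace H → ℂ) : Prop :=
  ∀ (D : Op ρ H) (hD : IsInvariantDiffOp D) (ψ ψ' : Smooth ρ H), HasCompactSupport ψ.fn →
    HasCompactSupport ψ'.fn → IsTranspose μ D ψ ψ' →
    ∫ x, f x * ψ'.fn x ∂μ = lam (DAlg.of D hD) * ∫ x, f x * ψ.fn x ∂μ

/-- `L²(Δ \ G / H)_λ ≠ 0`. -/
def EigenspaceNeZero (μ : Measure (HomSpace H)) (Δ : Subgroup G) (lam : Chr ρ H) : Prop :=
  ∃ f : HomSpace H → ℂ, AEStronglyMeasurable f μ ∧ (∀ γ ∈ Δ, ∀ x, f (γ • x) = f x) ∧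
    SqIntegrableMod μ Δ f ∧ WeakEigen μ lam f ∧ ¬ f =ᵐ[μ] 0

/-- `λ` is a stable spectrum on `L²(Γ \ G / H)`. -/
def IsStableSpectrum (μ : Measure (HomSpace H)) (ι : Γ →* G) (lam : Chr ρ H) : Prop :=
  ∃ U ∈ 𝓝 (fun γ => ι γ : Γ → G), ∀ φ : Γ →* G, (fun γ => φ γ : Γ → G) ∈ U →
    EigenspaceNeZero μ φ.range lam

/-- `π` is a unitary representation of `G` on the Hilbert space `E`: each vector has a continuous
orbit map. It is irreducible: `E ≠ 0` and a closed invariant subspace is `0` or `E`. -/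
def IsIrreducibleRep {E : Type} [NormedAddCommGroup E] [InnerProductSpace ℂ E]
    (π : G →* (E ≃ₗᵢ[ℂ] E)) : Prop :=
  (∀ v, Continuous fun g => π g v) ∧ Nontrivial E ∧
    ∀ W : Submodule ℂ E, IsClosed (W : Set E) → (∀ g, ∀ w ∈ W, π g w ∈ W) → W = ⊥ ∨ W = ⊤

/-- The Hilbert space `L²(G/H)`. -/
def L2 (μ : Measure (HomSpace H)) : Type := Lp ℂ 2 μ

noncomputable instance (μ : Measure (HomSpace H)) : NormedAddCommGroup (L2 μ) := Lp.instNormedAddCommGroup
noncomputable instance (μ : Measure (HomSpace H)) : NormedSpace ℂ (L2 μ) := Lp.instNormedSpace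

/-- A function representing an element of `L²(G/H)`. -/
noncomputable def L2.fn {μ : Measure (HomSpace H)} (f : L2 μ) : HomSpace H → ℂ := (show Lp ℂ 2 μ from f)

/-- `T` is a non-zero continuous `G`-homomorphism to the regular representation on `L²(G/H)`. -/
def IsIntertwining {E : Type} [NormedAddCommGroup E] [InnerProductSpace ℂ E]
    (π : G →* (E ≃ₗᵢ[ℂ] E)) (μ : Measure (HomSpace H)) (T : E →L[ℂ] L2 μ) : Prop :=
  T ≠ 0 ∧ ∀ (g : G) (v : E), (T (π g v)).fn =ᵐ[μ] fun x => (T v).fn (g⁻¹ • x)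

/-- `Disc(G/H) ≠ ∅`: some irreducible unitary representation of `G` admits a non-zero continuous
`G`-homomorphism to the regular representation on `L²(G/H)`. -/
def DiscNonempty (μ : Measure (HomSpace H)) : Prop :=
  ∃ (E : Type) (_ : NormedAddCommGroup E) (_ : InnerProductSpace ℂ E) (_ : CompleteSpace E)
    (π : G →* (E ≃ₗᵢ[ℂ] E)) (T : E →L[ℂ] L2 μ), IsIrreducibleRep π ∧ IsIntertwining π μ T

end General

section Bot

variable {G : Type} [Group G] [TopologicalSpace G]

/-- the inverse of the projection `G → G/1` -/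
def unproj (x : HomSpace (⊥ : Subgroup G)) : G := Quotient.liftOn' x id (fun a b h => by
  rw [QuotientGroup.leftRel_apply, Subgroup.mem_bot] at h
  exact inv_mul_eq_one.mp h)

theorem unproj_proj (g : G) : unproj (proj (⊥ : Subgroup G) g) = g := rfl

theorem proj_unproj (x : HomSpace (⊥ : Subgroup G)) : proj ⊥ (unproj x) = x := by
  induction x using Quotient.inductionOn' with
  | h a => rfl

theorem smul_proj (g h : G) : g • proj (⊥ : Subgroup G) h = proj ⊥ (g * h) := rfl

theorem unproj_smul (g : G) (x : HomSpace (⊥ : Subgroup G)) : unproj (g • x) = g * unproj x := by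
  conv_lhs => rw [← proj_unproj x]
  rfl

/-- `G` is homeomorphic to `G/1` -/
def hproj : G ≃ₜ HomSpace (⊥ : Subgroup G) where
  toFun := proj ⊥
  invFun := unproj
  left_inv := unproj_proj
  right_inv := proj_unproj
  continuous_toFun := continuous_quotient_mk'
  continuous_invFun := continuous_id.quotient_lift _

end Bot

noncomputable section Example

/-- the diagonal matrix with entries `z`, `1 / conj z` -/
def dg (z : ℂ) : Matrix (Fin 2) (Fin 2) ℂ := !![z, 0; 0, (conj z)⁻¹]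

/-- the antidiagonal matrix with entries `z`, `1 / conj z` -/
def ad (z : ℂ) : Matrix (Fin 2) (Fin 2) ℂ := !![0, z; (conj z)⁻¹, 0]

theorem dg_mul_dg (z w : ℂ) : dg z * dg w = dg (z * w) := by
  simp [dg, mul_comm]

theorem dg_mul_ad (z w : ℂ) : dg z * ad w = ad (z * w) := by
  simp [dg, ad, mul_comm]

theorem ad_mul_dg (z w : ℂ) : ad z * dg w = ad (z * (conj w)⁻¹) := by
  simp [dg, ad, mul_comm]

theorem ad_mul_ad (z w : ℂ) : ad z * ad w = dg (z * (conj w)⁻¹) := by
  simp [dg, ad, mul_comm]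

theorem dg_one : dg 1 = 1 := by
  simp [dg, Matrix.one_fin_two]

/-- The group `G` of all matrices `diag(z, 1 / conj z)` and `antidiag(z, 1 / conj z)`, `z ≠ 0`;
it is isomorphic to `U(1) × (ℝ ⋊ ℤ/2)`. -/
def GG : Subgroup (GLn (Fin 2)) where
  carrier := {g | (∃ z : ℂ, z ≠ 0 ∧ (g : Matrix (Fin 2) (Fin 2) ℂ) = dg z) ∨
    (∃ z : ℂ, z ≠ 0 ∧ (g : Matrix (Fin 2) (Fin 2) ℂ) = ad z)}
  one_mem' := Or.inl ⟨1, one_ne_zero, by rw [dg_one]; rfl⟩
  mul_mem' := by
    rintro a b (⟨z, hz, ha⟩ | ⟨z, hz, ha⟩) (⟨w, hw, hb⟩ | ⟨w, hw, hb⟩)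
    · exact Or.inl ⟨z * w, mul_ne_zero hz hw, by rw [Units.val_mul, ha, hb, dg_mul_dg]⟩
    · exact Or.inr ⟨z * w, mul_ne_zero hz hw, by rw [Units.val_mul, ha, hb, dg_mul_ad]⟩
    · exact Or.inr ⟨z * (conj w)⁻¹, mul_ne_zero hz (by simpa using hw), by
        rw [Units.val_mul, ha, hb, ad_mul_dg]⟩
    · exact Or.inl ⟨z * (conj w)⁻¹, mul_ne_zero hz (by simpa using hw), by
        rw [Units.val_mul, ha, hb, ad_mul_ad]⟩
  inv_mem' := by
    rintro a (⟨z, hz, ha⟩ | ⟨z, hz, ha⟩)
    · refine Or.inl ⟨z⁻¹, inv_ne_zero hz, ?_⟩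
      have : (a⁻¹ : GLn (Fin 2)).val * a.val = dg z⁻¹ * a.val := by
        rw [Units.inv_mul, ha, dg_mul_dg, inv_mul_cancel₀ hz, dg_one]
      exact (Units.mul_left_inj a).mp this
    · refine Or.inr ⟨conj z, by simpa using hz, ?_⟩
      have : (a⁻¹ : GLn (Fin 2)).val * a.val = ad (conj z) * a.val := by
        rw [Units.inv_mul, ha, ad_mul_ad, mul_inv_cancel₀ (by simpa using hz), dg_one]
      exact (Units.mul_left_inj a).mp this

/-- the element `diag(z, 1 / conj z)` of `G` -/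
def dU (z : ℂˣ) : GG :=
  ⟨⟨dg z, dg ((z⁻¹ : ℂˣ) : ℂ), by rw [dg_mul_dg, ← Units.val_mul, mul_inv_cancel]; exact dg_one,
    by rw [dg_mul_dg, ← Units.val_mul, inv_mul_cancel]; exact dg_one⟩, Or.inl ⟨z, z.ne_zero, rfl⟩⟩

/-- the element `antidiag(1, 1)` of `G` -/
def sU : GG :=
  ⟨⟨ad 1, ad 1, by rw [ad_mul_ad]; simpa using dg_one, by rw [ad_mul_ad]; simpa using dg_one⟩,
    Or.inr ⟨1, one_ne_zero, rfl⟩⟩

theorem val_dU (z : ℂˣ) : ((dU z : GLn (Fin 2)) : Matrix (Fin 2) (Fin 2) ℂ) = dg z := rfl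
theorem val_sU : ((sU : GLn (Fin 2)) : Matrix (Fin 2) (Fin 2) ℂ) = ad 1 := rfl

theorem GG_ext {g h : GG} (H : ((g : GLn (Fin 2)) : Matrix (Fin 2) (Fin 2) ℂ) =
    ((h : GLn (Fin 2)) : Matrix (Fin 2) (Fin 2) ℂ)) : g = h :=
  Subtype.ext (Units.ext H)

theorem dU_mul (z w : ℂˣ) : dU (z * w) = dU z * dU w := GG_ext (by
  rw [Subgroup.coe_mul, Units.val_mul, val_dU, val_dU, val_dU, dg_mul_dg, Units.val_mul])

theorem dU_one : dU 1 = 1 := GG_ext (by rw [val_dU]; exact dg_one)

theorem sU_mul_sU : sU * sU = 1 := GG_ext (by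
  rw [Subgroup.coe_mul, Units.val_mul, val_sU, ad_mul_ad]; simpa using dg_one)

/-- the inverse of the complex conjugate -/
def cinv (z : ℂˣ) : ℂˣ := (Units.map (starRingEnd ℂ : ℂ →* ℂ) z)⁻¹

theorem val_cinv (z : ℂˣ) : ((cinv z : ℂˣ) : ℂ) = (conj (z : ℂ))⁻¹ := by
  simp [cinv]

theorem dU_mul_sU (z : ℂˣ) : dU z * sU = sU * dU (cinv z) := GG_ext (by
  rw [Subgroup.coe_mul, Units.val_mul, Subgroup.coe_mul, Units.val_mul, val_dU, val_dU, val_sU,
    dg_mul_ad, ad_mul_dg, val_cinv]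
  simp)

theorem GG_cases (g : GG) : (∃ z, g = dU z) ∨ (∃ z, g = sU * dU z) := by
  rcases g.2 with ⟨z, hz, hg⟩ | ⟨z, hz, hg⟩
  · exact Or.inl ⟨Units.mk0 z hz, GG_ext (by rw [hg, val_dU]; rfl)⟩
  · refine Or.inr ⟨cinv (Units.mk0 z hz), GG_ext ?_⟩
    rw [hg, Subgroup.coe_mul, Units.val_mul, val_dU, val_sU, ad_mul_dg, val_cinv]
    simp

/-- the character `χ` of `G` -/
def chi (g : GG) : ℂ := ent GG.subtype g 0 0 * ent GG.subtype g 1 1 + ent GG.subtype g 0 1 * ent GG.subtype g 1 0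

theorem chi_dU (z : ℂˣ) : chi (dU z) = z * (conj (z : ℂ))⁻¹ := by
  simp [chi, ent, dU, dg]

theorem ent_eq (g : GG) (i j : Fin 2) : ent GG.subtype g i j = (g : GLn (Fin 2)).val i j := rfl

theorem chi_sU_mul_dU (z : ℂˣ) : chi (sU * dU z) = z * (conj (z : ℂ))⁻¹ := by
  have : ((sU * dU z : GG) : GLn (Fin 2)).val = ad ((conj (z : ℂ))⁻¹) := by
    rw [Subgroup.coe_mul, Units.val_mul, val_dU, val_sU, ad_mul_dg, one_mul]
  simp only [chi, ent_eq]
  rw [this]
  simp [ad, mul_comm]

theorem chi_one : chi 1 = 1 := by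
  rw [← dU_one, chi_dU]; simp

theorem chi_mul (g h : GG) : chi (g * h) = chi g * chi h := by
  rcases GG_cases g with ⟨z, rfl⟩ | ⟨z, rfl⟩ <;> rcases GG_cases h with ⟨w, rfl⟩ | ⟨w, rfl⟩
  · rw [← dU_mul, chi_dU, chi_dU, chi_dU]
    simp only [Units.val_mul, map_mul, mul_inv]
    ring
  · rw [← mul_assoc, dU_mul_sU, mul_assoc, ← dU_mul, chi_dU, chi_sU_mul_dU, chi_sU_mul_dU]
    simp only [Units.val_mul, map_mul, mul_inv, val_cinv, map_inv₀, Complex.conj_conj, inv_inv]
    ring
  · rw [mul_assoc, ← dU_mul, chi_dU, chi_sU_mul_dU, chi_sU_mul_dU]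
    simp only [Units.val_mul, map_mul, mul_inv]
    ring
  · rw [mul_assoc, ← mul_assoc (dU z), dU_mul_sU, ← mul_assoc, ← mul_assoc, sU_mul_sU, one_mul,
      ← dU_mul, chi_dU, chi_sU_mul_dU, chi_sU_mul_dU]
    simp only [Units.val_mul, map_mul, mul_inv, val_cinv, map_inv₀, Complex.conj_conj, inv_inv]
    ring

theorem norm_chi (g : GG) : ‖chi g‖ = 1 := by
  have key : ∀ z : ℂˣ, ‖(z : ℂ) * (conj (z : ℂ))⁻¹‖ = 1 := by
    intro z
    rw [norm_mul, norm_inv, RCLike.norm_conj, mul_inv_cancel₀]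
    exact norm_ne_zero_iff.mpr z.ne_zero
  rcases GG_cases g with ⟨z, rfl⟩ | ⟨z, rfl⟩
  · rw [chi_dU, key]
  · rw [chi_sU_mul_dU, key]


/-- the eigenfunctions `χ ^ m` -/
def efun (m : ℕ) : Smooth GG.subtype ⊥ := ⟨fun x => chi (unproj x) ^ m, fun g =>
  ⟨Set.univ, isOpen_univ, Set.mem_univ _, fun x => (x 0 0 * x 1 1 + x 0 1 * x 1 0) ^ m,
    by fun_prop, fun _ _ => rfl⟩⟩

theorem efun_apply (m : ℕ) (x : HomSpace (⊥ : Subgroup GG)) : (efun m).fn x = chi (unproj x) ^ m := rfl

theorem efun_smul (m : ℕ) (g : GG) (x : HomSpace (⊥ : Subgroup GG)) :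
    (efun m).fn (g • x) = chi g ^ m * (efun m).fn x := by
  rw [efun_apply, efun_apply, unproj_smul, chi_mul, mul_pow]

theorem efun_one (m : ℕ) : (efun m).fn (proj ⊥ 1) = 1 := by
  rw [efun_apply, unproj_proj, chi_one, one_pow]

theorem norm_efun (m : ℕ) (x : HomSpace (⊥ : Subgroup GG)) : ‖(efun m).fn x‖ = 1 := by
  rw [efun_apply, norm_pow, norm_chi, one_pow]

theorem eigen (D : DAlg GG.subtype ⊥) (m : ℕ) : D.1 (efun m) = (D.1 (efun m)).fn (proj ⊥ 1) • efun m := by
  apply Subtype.ext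
  funext x
  have h := D.2.2 (unproj x) (efun m) (chi (unproj x)⁻¹ ^ m • efun m) (fun y => by
    rw [efun_smul]; rfl) x
  rw [map_smul] at h
  have h2 : (unproj x)⁻¹ • x = proj ⊥ 1 := by
    conv_lhs => rw [← proj_unproj x]
    rw [unproj_proj, smul_proj, inv_mul_cancel]
  rw [h2] at h
  change _ = (D.1 (efun m)).fn (proj ⊥ 1) * (efun m).fn x
  rw [← h, efun_apply]
  change _ = chi (unproj x)⁻¹ ^ m * (D.1 (efun m)).fn x * chi (unproj x) ^ m
  have h3 : chi (unproj x)⁻¹ ^ m * chi (unproj x) ^ m = 1 := by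
    rw [← mul_pow, ← chi_mul, inv_mul_cancel, chi_one, one_pow]
  calc _ = (chi (unproj x)⁻¹ ^ m * chi (unproj x) ^ m) * (D.1 (efun m)).fn x := by rw [h3, one_mul]; rfl
    _ = _ := by ring

/-- the characters `λ_m` of `𝔻(G/H)` -/
def lam (m : ℕ) : Chr GG.subtype ⊥ :=
  AlgHom.ofLinearMap
    { toFun := fun D => (D.1 (efun m)).fn (proj ⊥ 1)
      map_add' := fun _ _ => rfl
      map_smul' := fun _ _ => rfl }
    (efun_one m)
    (fun D E => by
      change (D.1 (E.1 (efun m))).fn (proj ⊥ 1) = _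
      rw [eigen E m, map_smul]
      change (E.1 (efun m)).fn (proj ⊥ 1) * (D.1 (efun m)).fn (proj ⊥ 1) = _
      rw [mul_comm]
      rfl)

theorem lam_apply (m : ℕ) (D : DAlg GG.subtype ⊥) : lam m D = (D.1 (efun m)).fn (proj ⊥ 1) := rfl

theorem eigen' (D : DAlg GG.subtype ⊥) (m : ℕ) (x : HomSpace (⊥ : Subgroup GG)) :
    (D.1 (efun m)).fn x = lam m D * (efun m).fn x := by
  rw [eigen D m]; rfl

/-- the rotation by `θ` -/
def rot (θ : ℝ) : GG := dU (Units.mk0 (Complex.exp (θ * Complex.I)) (Complex.exp_ne_zero _))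

theorem rot_zero : rot 0 = 1 := by
  have : (Units.mk0 (Complex.exp ((0 : ℝ) * Complex.I)) (Complex.exp_ne_zero _)) = 1 := by
    apply Units.ext; simp
  rw [rot, this, dU_one]

theorem conj_exp_I (θ : ℝ) : (conj (Complex.exp (θ * Complex.I)))⁻¹ = Complex.exp (θ * Complex.I) := by
  rw [← Complex.exp_conj, ← Complex.exp_neg]
  simp

theorem ent_mul_rot (g : GG) (θ : ℝ) : ent GG.subtype (g * rot θ) = Complex.exp (θ * Complex.I) • ent GG.subtype g := by
  have h1 : ((rot θ : GG) : GLn (Fin 2)).val = Complex.exp (θ * Complex.I) • (1 : Matrix (Fin 2) (Fin 2) ℂ) := by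
    rw [rot, val_dU, Units.val_mk0, dg, conj_exp_I]
    ext i j
    fin_cases i <;> fin_cases j <;> simp
  have h2 : ((g * rot θ : GG) : GLn (Fin 2)).val = Complex.exp (θ * Complex.I) • (g : GLn (Fin 2)).val := by
    rw [Subgroup.coe_mul, Units.val_mul, h1, Matrix.mul_smul, mul_one]
  funext i j
  simp only [ent_eq, Pi.smul_apply]
  rw [h2]
  rfl

theorem hasDerivAt_rot {f : HomSpace (⊥ : Subgroup GG) → ℂ} {U : Set (Fin 2 → Fin 2 → ℂ)} (hU : IsOpen U)
    {F : (Fin 2 → Fin 2 → ℂ) → ℂ} (hF : ContDiffOn ℝ ∞ F U)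
    (hfF : ∀ g' : GG, ent GG.subtype g' ∈ U → f (proj ⊥ g') = F (ent GG.subtype g')) {g : GG} (hg : ent GG.subtype g ∈ U) :
    HasDerivAt (fun θ : ℝ => f (proj ⊥ (g * rot θ))) (fderiv ℝ F (ent GG.subtype g) (Complex.I • ent GG.subtype g)) 0 := by
  have hc : HasDerivAt (fun θ : ℝ => Complex.exp (θ * Complex.I) • ent GG.subtype g) (Complex.I • ent GG.subtype g) 0 := by
    have h1 : HasDerivAt (fun θ : ℝ => Complex.exp (θ * Complex.I)) Complex.I 0 := by
      have h2 : HasDerivAt (fun θ : ℝ => (θ : ℂ) * Complex.I) Complex.I 0 := by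
        simpa using (Complex.ofRealCLM.hasDerivAt (x := (0 : ℝ))).mul_const Complex.I
      simpa using h2.cexp
    simpa using h1.smul_const (ent GG.subtype g)
  have h0 : Complex.exp ((0 : ℝ) * Complex.I) • ent GG.subtype g = ent GG.subtype g := by simp
  have hd : HasFDerivAt F (fderiv ℝ F (ent GG.subtype g)) (Complex.exp ((0 : ℝ) * Complex.I) • ent GG.subtype g) := by
    rw [h0]
    exact ((hF.contDiffAt (hU.mem_nhds hg)).differentiableAt (by simp)).hasFDerivAt
  have hcomp := hd.comp_hasDerivAt (0 : ℝ) hc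
  refine hcomp.congr_of_eventuallyEq ?_
  have hcont : ContinuousAt (fun θ : ℝ => Complex.exp (θ * Complex.I) • ent GG.subtype g) 0 := hc.continuousAt
  have hev : ∀ᶠ θ : ℝ in 𝓝 0, Complex.exp (θ * Complex.I) • ent GG.subtype g ∈ U :=
    hcont.eventually_mem (by rw [h0]; exact hU.mem_nhds hg)
  filter_upwards [hev] with θ hθ
  rw [hfF _ (by rw [ent_mul_rot]; exact hθ), ent_mul_rot]
  rfl

theorem differentiable_rot (f : Smooth GG.subtype ⊥) (g : GG) :
    DifferentiableAt ℝ (fun θ : ℝ => f.fn (proj ⊥ (g * rot θ))) 0 := by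
  obtain ⟨U, hU, hgU, F, hF, hfF⟩ := f.2 g
  exact (hasDerivAt_rot hU hF hfF hgU).differentiableAt

/-- the invariant vector field generating the rotations -/
def dth : Module.End ℂ (Smooth GG.subtype ⊥) where
  toFun := fun f => ⟨fun x => deriv (fun θ : ℝ => f.fn (proj ⊥ (unproj x * rot θ))) 0, fun g => by
    obtain ⟨U, hU, hgU, F, hF, hfF⟩ := f.2 g
    refine ⟨U, hU, hgU, fun x => fderiv ℝ F x (Complex.I • x), ?_, fun g' hg' => ?_⟩
    · exact (hF.fderiv_of_isOpen hU (by simp)).clm_apply (by fun_prop)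
    · exact (hasDerivAt_rot hU hF hfF hg').deriv⟩
  map_add' := fun f f' => by
    apply Subtype.ext
    funext x
    exact deriv_add (differentiable_rot f (unproj x)) (differentiable_rot f' (unproj x))
  map_smul' := fun c f => by
    apply Subtype.ext
    funext x
    exact deriv_const_smul c (differentiable_rot f (unproj x))

theorem dth_apply (f : Smooth GG.subtype ⊥) (x : HomSpace (⊥ : Subgroup GG)) :
    (dth f).fn x = deriv (fun θ : ℝ => f.fn (proj ⊥ (unproj x * rot θ))) 0 := rfl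

theorem comm_dth (f u : Smooth GG.subtype ⊥) : comm dth f u = dth f * u := by
  rw [comm_apply, sub_eq_iff_eq_add]
  apply Subtype.ext
  funext x
  change deriv (fun θ : ℝ => f.fn (proj ⊥ (unproj x * rot θ)) * u.fn (proj ⊥ (unproj x * rot θ))) 0 = _
  have h := deriv_mul (differentiable_rot f (unproj x)) (differentiable_rot u (unproj x))
  refine h.trans ?_
  rw [rot_zero, mul_one, proj_unproj]
  rfl

theorem dth_mem : IsInvariantDiffOp dth := by
  refine ⟨⟨1, fun f f' => ?_⟩, fun g f f' h x => ?_⟩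
  · apply LinearMap.ext
    intro u
    rw [comm_apply, comm_dth, comm_dth, LinearMap.zero_apply, mul_left_comm, sub_self]
  · rw [dth_apply, dth_apply]
    congr 1
    funext θ
    rw [h, unproj_smul, smul_proj, mul_assoc]

theorem lam_dth (m : ℕ) : lam m (DAlg.of dth dth_mem) = 2 * m * Complex.I := by
  rw [lam_apply]
  change deriv (fun θ : ℝ => (efun m).fn (proj ⊥ (unproj (proj ⊥ 1) * rot θ))) 0 = _
  have h1 : (fun θ : ℝ => (efun m).fn (proj ⊥ (unproj (proj ⊥ 1) * rot θ))) =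
      fun θ : ℝ => Complex.exp ((2 * m * Complex.I) * θ) := by
    funext θ
    rw [efun_apply, unproj_proj, unproj_proj, one_mul, rot, chi_dU, Units.val_mk0, conj_exp_I,
      ← Complex.exp_add, ← Complex.exp_nat_mul]
    congr 1
    ring
  rw [h1]
  have h2 : HasDerivAt (fun θ : ℝ => (2 * m * Complex.I) * (θ : ℂ)) (2 * m * Complex.I) 0 := by
    simpa using (Complex.ofRealCLM.hasDerivAt (x := (0 : ℝ))).const_mul (2 * m * Complex.I)
  have h3 := h2.cexp
  simpa using h3.deriv

theorem lam_injective : Function.Injective lam := by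
  intro m k h
  have h1 : lam m (DAlg.of dth dth_mem) = lam k (DAlg.of dth dth_mem) := congrArg (fun l : DAlg GG.subtype ⊥ →ₐ[ℂ] ℂ => l (DAlg.of dth dth_mem)) h
  simp only [lam_dth] at h1
  have h2 := mul_right_cancel₀ Complex.I_ne_zero h1
  have h3 : (m : ℂ) = k := mul_left_cancel₀ two_ne_zero h2
  exact_mod_cast h3

end Example

noncomputable section Example2

theorem mem_GG_iff (g : GLn (Fin 2)) : g ∈ GG ↔
    (g.val 0 1 = 0 ∧ g.val 1 0 = 0 ∧ g.val 0 0 * conj (g.val 1 1) = 1) ∨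
    (g.val 0 0 = 0 ∧ g.val 1 1 = 0 ∧ g.val 0 1 * conj (g.val 1 0) = 1) := by
  constructor
  · rintro (⟨z, hz, hg⟩ | ⟨z, hz, hg⟩)
    · left
      rw [hg]
      simp [dg, hz]
    · right
      rw [hg]
      simp [ad, hz]
  · rintro (⟨h1, h2, h3⟩ | ⟨h1, h2, h3⟩)
    · left
      refine ⟨g.val 0 0, left_ne_zero_of_mul_eq_one h3, ?_⟩
      have h4 : g.val 1 1 = (conj (g.val 0 0))⁻¹ := by
        have h5 := congrArg conj h3
        simp only [map_mul, Complex.conj_conj, map_one] at h5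
        exact eq_inv_of_mul_eq_one_right h5
      ext i j
      fin_cases i <;> fin_cases j <;> simp [dg, h1, h2, h4]
    · right
      refine ⟨g.val 0 1, left_ne_zero_of_mul_eq_one h3, ?_⟩
      have h4 : g.val 1 0 = (conj (g.val 0 1))⁻¹ := by
        have h5 := congrArg conj h3
        simp only [map_mul, Complex.conj_conj, map_one] at h5
        exact eq_inv_of_mul_eq_one_right h5
      ext i j
      fin_cases i <;> fin_cases j <;> simp [ad, h1, h2, h4]

theorem continuous_entry (i j : Fin 2) : Continuous fun g : GLn (Fin 2) => g.val i j :=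
  Units.continuous_val.matrix_elem i j

theorem isClosed_GG : IsClosed (GG : Set (GLn (Fin 2))) := by
  have h : (GG : Set (GLn (Fin 2))) =
    ({g | g.val 0 1 = 0} ∩ ({g | g.val 1 0 = 0} ∩ {g | g.val 0 0 * conj (g.val 1 1) = 1})) ∪
    ({g | g.val 0 0 = 0} ∩ ({g | g.val 1 1 = 0} ∩ {g | g.val 0 1 * conj (g.val 1 0) = 1})) := by
    ext g
    exact mem_GG_iff g
  rw [h]
  have c := continuous_entry
  refine IsClosed.union (IsClosed.inter ?_ (IsClosed.inter ?_ ?_)) (IsClosed.inter ?_ (IsClosed.inter ?_ ?_))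
  · exact isClosed_eq (c 0 1) continuous_const
  · exact isClosed_eq (c 1 0) continuous_const
  · exact isClosed_eq ((c 0 0).mul (Complex.continuous_conj.comp (c 1 1))) continuous_const
  · exact isClosed_eq (c 0 0) continuous_const
  · exact isClosed_eq (c 1 1) continuous_const
  · exact isClosed_eq ((c 0 1).mul (Complex.continuous_conj.comp (c 1 0))) continuous_const

theorem continuous_dg : Continuous fun z : ℂˣ => dg (z : ℂ) := by
  refine continuous_matrix ?_
  intro i j
  fin_cases i <;> fin_cases j <;> simp [dg] <;> fun_prop (disch := simp)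

theorem continuous_dU : Continuous dU := by
  refine Continuous.subtype_mk ?_ _
  rw [Units.continuous_iff]
  exact ⟨continuous_dg, continuous_dg.comp continuous_inv⟩

instance : LocallyCompactSpace (Matrix (Fin 2) (Fin 2) ℂ) :=
  inferInstanceAs (LocallyCompactSpace (Fin 2 → Fin 2 → ℂ))

instance : SecondCountableTopology (Matrix (Fin 2) (Fin 2) ℂ) :=
  inferInstanceAs (SecondCountableTopology (Fin 2 → Fin 2 → ℂ))

instance : LocallyCompactSpace (Matrix (Fin 2) (Fin 2) ℂ)ᵐᵒᵖ :=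
  MulOpposite.opHomeomorph.symm.isClosedEmbedding.locallyCompactSpace

instance : SecondCountableTopology (Matrix (Fin 2) (Fin 2) ℂ)ᵐᵒᵖ :=
  MulOpposite.opHomeomorph.symm.isEmbedding.secondCountableTopology

instance : LocallyCompactSpace (GLn (Fin 2)) :=
  (Units.isClosedEmbedding_embedProduct (α := Matrix (Fin 2) (Fin 2) ℂ)).locallyCompactSpace

instance : SecondCountableTopology (GLn (Fin 2)) :=
  (Units.isClosedEmbedding_embedProduct (α := Matrix (Fin 2) (Fin 2) ℂ)).isEmbedding.secondCountableTopology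

instance : LocallyCompactSpace GG := isClosed_GG.isClosedEmbedding_subtypeVal.locallyCompactSpace

instance : ConnectedSpace ℂˣ := by
  have h : IsConnected ({0}ᶜ : Set ℂ) :=
    isConnected_compl_singleton_of_one_lt_rank (by rw [Complex.rank_real_complex]; norm_num) 0
  have h2 : ConnectedSpace {z : ℂ // z ≠ 0} := isConnected_iff_connectedSpace.mp h
  exact (unitsHomeomorphNeZero (G₀ := ℂ)).symm.surjective.connectedSpace
    (unitsHomeomorphNeZero (G₀ := ℂ)).symm.continuous

theorem finite_comp_GG : Finite (ConnectedComponents GG) := by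
  have hd : ∀ z : ℂˣ, (ConnectedComponents.mk (dU z) : ConnectedComponents GG) = ConnectedComponents.mk (dU 1) := by
    intro z
    rw [ConnectedComponents.coe_eq_coe']
    exact (isPreconnected_range continuous_dU).subset_connectedComponent ⟨1, rfl⟩ ⟨z, rfl⟩
  have hs : ∀ z : ℂˣ, (ConnectedComponents.mk (sU * dU z) : ConnectedComponents GG) =
      ConnectedComponents.mk (sU * dU 1) := by
    intro z
    rw [ConnectedComponents.coe_eq_coe']
    exact (isPreconnected_range (continuous_const.mul continuous_dU)).subset_connectedComponent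
      ⟨1, rfl⟩ ⟨z, rfl⟩
  have hfin : (Set.univ : Set (ConnectedComponents GG)).Finite := by
    refine (Set.toFinite ({ConnectedComponents.mk (dU 1), ConnectedComponents.mk (sU * dU 1)} :
      Set (ConnectedComponents GG))).subset ?_
    intro c _
    obtain ⟨g, rfl⟩ := ConnectedComponents.surjective_coe c
    rcases GG_cases g with ⟨z, rfl⟩ | ⟨z, rfl⟩
    · left; exact hd z
    · right; exact hs z
  exact Set.finite_univ_iff.mp hfin

theorem reductivePair : IsReductivePair GG.subtype ⊥ where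
  closed_G := isClosed_GG.isClosedEmbedding_subtypeVal
  closed_H := by
    rw [Subgroup.coe_bot]; exact isClosed_singleton
  finite_G := finite_comp_GG
  finite_H := inferInstance
  selfadjoint := by
    refine ⟨1, ?_, ?_⟩
    · rintro ⟨g, (⟨z, hz, hg⟩ | ⟨z, hz, hg⟩)⟩
      · refine ⟨dU (Units.mk0 (conj z) (by simpa using hz)), ?_⟩
        simp only [one_mul, inv_one, mul_one, Subgroup.subtype_apply]
        rw [hg, val_dU]
        ext i j
        fin_cases i <;> fin_cases j <;> simp [dg]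
      · refine ⟨sU * dU (Units.mk0 (conj z) (by simpa using hz)), ?_⟩
        simp only [one_mul, inv_one, mul_one, Subgroup.subtype_apply]
        rw [hg, Subgroup.coe_mul, Units.val_mul, val_dU, val_sU, ad_mul_dg]
        ext i j
        fin_cases i <;> fin_cases j <;> simp [ad]
    · intro h hh
      rw [Subgroup.mem_bot] at hh
      refine ⟨1, Subgroup.one_mem _, ?_⟩
      subst hh
      simp

/-- real elements -/
def dR : ℝˣ →* GG where
  toFun := fun x => dU (Units.map (Complex.ofRealHom : ℝ →* ℂ) x)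
  map_one' := by rw [map_one, dU_one]
  map_mul' := fun x y => by rw [map_mul, dU_mul]

theorem dR_apply (x : ℝˣ) : dR x = dU (Units.map (Complex.ofRealHom : ℝ →* ℂ) x) := rfl

theorem val_ofR (x : ℝˣ) : ((Units.map (Complex.ofRealHom : ℝ →* ℂ) x : ℂˣ) : ℂ) = ((x : ℝ) : ℂ) := rfl

theorem cinv_ofR (x : ℝˣ) : cinv (Units.map (Complex.ofRealHom : ℝ →* ℂ) x) =
    Units.map (Complex.ofRealHom : ℝ →* ℂ) x⁻¹ := by
  apply Units.ext
  rw [val_cinv, val_ofR, val_ofR, Complex.conj_ofReal, Units.val_inv_eq_inv_val, Complex.ofReal_inv]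

theorem dR_mul_sU (x : ℝˣ) : dR x * sU = sU * dR x⁻¹ := by
  rw [dR_apply, dU_mul_sU, cinv_ofR, dR_apply]

theorem continuous_dR : Continuous dR := by
  refine continuous_dU.comp ?_
  exact Continuous.units_map _ Complex.continuous_ofReal

/-- an element of `ZMod 0` is an integer -/
def zi (k : ZMod 0) : ℤ := k

theorem zi_add (i j : ZMod 0) : zi (i + j) = zi i + zi j := rfl
theorem zi_sub (i j : ZMod 0) : zi (i - j) = zi i - zi j := rfl

/-- the homomorphism of the infinite dihedral group -/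
def dih (b : ℝˣ) : DihedralGroup 0 →* GG where
  toFun := fun x => match x with
    | DihedralGroup.r k => dR (b ^ zi k)
    | DihedralGroup.sr k => sU * dR (b ^ zi k)
  map_one' := by
    change dR (b ^ (0 : ℤ)) = 1
    rw [zpow_zero, map_one]
  map_mul' := by
    rintro (i | i) (j | j)
    · change dR (b ^ zi (i + j)) = dR (b ^ zi i) * dR (b ^ zi j)
      rw [zi_add, _root_.zpow_add, map_mul]
    · change sU * dR (b ^ zi (j - i)) = dR (b ^ zi i) * (sU * dR (b ^ zi j))
      rw [← mul_assoc, dR_mul_sU, mul_assoc, ← map_mul, zi_sub, _root_.zpow_sub, mul_comm (b ^ zi j)]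
    · change sU * dR (b ^ zi (i + j)) = sU * dR (b ^ zi i) * dR (b ^ zi j)
      rw [mul_assoc, zi_add, _root_.zpow_add, map_mul]
    · change dR (b ^ zi (j - i)) = sU * dR (b ^ zi i) * (sU * dR (b ^ zi j))
      rw [mul_assoc, ← mul_assoc (dR _), dR_mul_sU, mul_assoc sU, ← mul_assoc sU sU, sU_mul_sU, one_mul, ← map_mul,
        zi_sub, _root_.zpow_sub, mul_comm (b ^ zi j)]

theorem dih_r (b : ℝˣ) (k : ZMod 0) : dih b (DihedralGroup.r k) = dR (b ^ zi k) := rfl
theorem dih_sr (b : ℝˣ) (k : ZMod 0) : dih b (DihedralGroup.sr k) = sU * dR (b ^ zi k) := rfl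

/-- the homomorphisms close to `dih 2` -/
structure Good (φ : DihedralGroup 0 →* GG) (a b : ℝˣ) : Prop where
  ha : 0 < (a : ℝ)
  hb : 1 < (b : ℝ)
  hr : ∀ k, φ (DihedralGroup.r k) = dR (b ^ zi k)
  hsr : ∀ k, φ (DihedralGroup.sr k) = sU * dR (a * b ^ zi k)

theorem good_of (φ : DihedralGroup 0 →* GG) (x y : ℝˣ) (hx : 0 < (x : ℝ)) (hxy : (x : ℝ) < (y : ℝ))
    (h0 : φ (DihedralGroup.sr 0) = sU * dR x) (h1 : φ (DihedralGroup.sr 1) = sU * dR y) :
    Good φ x (x⁻¹ * y) := by
  have hr1 : φ (DihedralGroup.r 1) = dR (x⁻¹ * y) := by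
    have : (DihedralGroup.r 1 : DihedralGroup 0) = DihedralGroup.sr 0 * DihedralGroup.sr 1 := by
      rw [DihedralGroup.sr_mul_sr, sub_zero]
    rw [this, map_mul, h0, h1, mul_assoc, ← mul_assoc (dR _), dR_mul_sU, mul_assoc sU,
      ← mul_assoc sU sU, sU_mul_sU, one_mul, ← map_mul]
  have hrk : ∀ k, φ (DihedralGroup.r k) = dR ((x⁻¹ * y) ^ zi k) := by
    intro k
    have : (DihedralGroup.r k : DihedralGroup 0) = DihedralGroup.r 1 ^ zi k := by
      rw [DihedralGroup.r_one_zpow]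
      congr 1
    rw [this, map_zpow, hr1, ← map_zpow]
  refine ⟨hx, ?_, hrk, ?_⟩
  · rw [Units.val_mul, Units.val_inv_eq_inv_val, inv_mul_eq_div, one_lt_div hx]
    exact hxy
  · intro k
    have : (DihedralGroup.sr k : DihedralGroup 0) = DihedralGroup.sr 0 * DihedralGroup.r k := by
      rw [DihedralGroup.sr_mul_r, zero_add]
    rw [this, map_mul, h0, hrk, mul_assoc, ← map_mul]

theorem good_dih (b : ℝˣ) (hb : 1 < (b : ℝ)) : Good (dih b) 1 b :=
  ⟨by simp, hb, fun k => dih_r b k, fun k => by rw [one_mul]; exact dih_sr b k⟩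

theorem ent_dU (z : ℂˣ) : ent GG.subtype (dU z) 0 0 = z ∧ ent GG.subtype (dU z) 0 1 = 0 ∧ ent GG.subtype (dU z) 1 0 = 0 ∧
    ent GG.subtype (dU z) 1 1 = (conj (z : ℂ))⁻¹ := by
  simp [ent_eq, val_dU, dg]

theorem ent_sU_dU (z : ℂˣ) : ent GG.subtype (sU * dU z) 0 0 = 0 ∧ ent GG.subtype (sU * dU z) 0 1 = (conj (z : ℂ))⁻¹ ∧
    ent GG.subtype (sU * dU z) 1 0 = z ∧ ent GG.subtype (sU * dU z) 1 1 = 0 := by
  have : ((sU * dU z : GG) : GLn (Fin 2)).val = ad ((conj (z : ℂ))⁻¹) := by
    rw [Subgroup.coe_mul, Units.val_mul, val_dU, val_sU, ad_mul_dg, one_mul]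
  simp only [ent_eq]
  rw [this]
  simp [ad]

theorem continuous_ent (i j : Fin 2) : Continuous fun g : GG => ent GG.subtype g i j :=
  (continuous_entry i j).comp continuous_subtype_val

theorem exists_real {g : GG} (hg : g * g = 1) {c : ℝ} (hc : 0 < c) {ε : ℝ} (hε : ε ≤ c)
    (h : ‖ent GG.subtype g 1 0 - c‖ < ε) : ∃ x : ℝˣ, g = sU * dR x ∧ |(x : ℝ) - c| < ε := by
  rcases GG_cases g with ⟨z, rfl⟩ | ⟨z, rfl⟩
  · exfalso
    rw [(ent_dU z).2.2.1, zero_sub, norm_neg, Complex.norm_real, Real.norm_of_nonneg hc.le] at h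
    linarith
  · rw [mul_assoc, ← mul_assoc (dU z), dU_mul_sU, mul_assoc sU, ← mul_assoc sU sU, sU_mul_sU, one_mul,
      ← dU_mul] at hg
    have h1 : (((cinv z * z : ℂˣ)) : ℂ) = 1 := by
      have h2 := congrArg (fun g : GG => ent GG.subtype g 0 0) hg
      rw [(ent_dU _).1, ← dU_one, (ent_dU _).1] at h2
      simpa using h2
    rw [Units.val_mul, val_cinv, inv_mul_eq_one₀ (by simp)] at h1
    rw [Complex.conj_eq_iff_real] at h1
    obtain ⟨r, hr⟩ := h1
    have hr0 : r ≠ 0 := by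
      rintro rfl
      exact z.ne_zero (by rw [hr]; simp)
    refine ⟨Units.mk0 r hr0, ?_, ?_⟩
    · rw [dR_apply]
      congr 2
      apply Units.ext
      rw [val_ofR, hr]; rfl
    · rw [(ent_sU_dU z).2.2.1, hr, ← Complex.ofReal_sub, Complex.norm_real] at h
      exact h

theorem good_near : ∃ U ∈ 𝓝 (fun γ => dih (Units.mk0 2 two_ne_zero) γ : DihedralGroup 0 → GG),
    ∀ φ : DihedralGroup 0 →* GG, (fun γ => φ γ : DihedralGroup 0 → GG) ∈ U →
    ∃ a b, Good φ a b := by
  refine ⟨{f | ‖ent GG.subtype (f (DihedralGroup.sr 0)) 1 0 - (1 : ℝ)‖ < 1 / 4} ∩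
    {f | ‖ent GG.subtype (f (DihedralGroup.sr 1)) 1 0 - (2 : ℝ)‖ < 1 / 2}, ?_, ?_⟩
  · apply IsOpen.mem_nhds
    · refine IsOpen.inter ?_ ?_
      · exact isOpen_lt (((continuous_ent 1 0).comp
          (continuous_apply (DihedralGroup.sr 0 : DihedralGroup 0))).sub continuous_const).norm
          continuous_const
      · exact isOpen_lt (((continuous_ent 1 0).comp
          (continuous_apply (DihedralGroup.sr 1 : DihedralGroup 0))).sub continuous_const).norm
          continuous_const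
    · constructor
      · change ‖ent GG.subtype (dih _ (DihedralGroup.sr 0)) 1 0 - _‖ < _
        rw [dih_sr, dR_apply, (ent_sU_dU _).2.2.1]
        have : zi 0 = 0 := rfl
        rw [this, zpow_zero, map_one]
        norm_num
      · change ‖ent GG.subtype (dih _ (DihedralGroup.sr 1)) 1 0 - _‖ < _
        rw [dih_sr, dR_apply, (ent_sU_dU _).2.2.1]
        have : zi 1 = 1 := rfl
        rw [this, zpow_one, val_ofR]
        norm_num
  · rintro φ ⟨h0, h1⟩
    have sq : ∀ k, φ (DihedralGroup.sr k) * φ (DihedralGroup.sr k) = 1 := by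
      intro k
      rw [← map_mul, DihedralGroup.sr_mul_sr, sub_self, ← DihedralGroup.one_def, map_one]
    obtain ⟨x, hx, hx2⟩ := exists_real (sq 0) one_pos (by norm_num) h0
    obtain ⟨y, hy, hy2⟩ := exists_real (sq 1) two_pos (by norm_num) h1
    rw [abs_lt] at hx2 hy2
    exact ⟨x, x⁻¹ * y, good_of φ x y (by linarith) (by linarith) hx hy⟩

end Example2

noncomputable section Example3

/-- the size of an element -/
def sz (g : GG) : ℝ := ‖ent GG.subtype g 0 0‖ + ‖ent GG.subtype g 0 1‖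

theorem continuous_sz : Continuous sz :=
  (continuous_ent 0 0).norm.add (continuous_ent 0 1).norm

theorem sz_dU (z : ℂˣ) : sz (dU z) = ‖(z : ℂ)‖ := by
  rw [sz, (ent_dU z).1, (ent_dU z).2.1, norm_zero, add_zero]

theorem sz_sU_dU (z : ℂˣ) : sz (sU * dU z) = ‖(z : ℂ)‖⁻¹ := by
  rw [sz, (ent_sU_dU z).1, (ent_sU_dU z).2.1, norm_zero, zero_add, norm_inv, RCLike.norm_conj]

theorem sz_pos (g : GG) : 0 < sz g := by
  rcases GG_cases g with ⟨z, rfl⟩ | ⟨z, rfl⟩
  · rw [sz_dU]; exact norm_pos_iff.mpr z.ne_zero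
  · rw [sz_sU_dU]; exact inv_pos.mpr (norm_pos_iff.mpr z.ne_zero)

theorem sz_sU_mul (g : GG) : sz (sU * g) = (sz g)⁻¹ := by
  rcases GG_cases g with ⟨z, rfl⟩ | ⟨z, rfl⟩
  · rw [sz_dU, sz_sU_dU]
  · rw [← mul_assoc, sU_mul_sU, one_mul, sz_dU, sz_sU_dU, inv_inv]

theorem sz_dU_mul (x : ℂˣ) (g : GG) : sz (dU x * g) = ‖(x : ℂ)‖ * sz g := by
  rcases GG_cases g with ⟨z, rfl⟩ | ⟨z, rfl⟩
  · rw [← dU_mul, sz_dU, sz_dU, Units.val_mul, norm_mul]
  · rw [← mul_assoc, dU_mul_sU, mul_assoc, ← dU_mul, sz_sU_dU, sz_sU_dU, Units.val_mul, norm_mul,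
      val_cinv, norm_inv, RCLike.norm_conj, mul_inv, inv_inv]

theorem sz_dR_mul (x : ℝˣ) (g : GG) : sz (dR x * g) = |(x : ℝ)| * sz g := by
  rw [dR_apply, sz_dU_mul, val_ofR, Complex.norm_real, Real.norm_eq_abs]

theorem finite_zpow {a b : ℝ} (ha : 0 < a) (hb : 1 < b) (C : ℝ) :
    {k : ℤ | a * b ^ k ≤ C ∧ (a * b ^ k)⁻¹ ≤ C}.Finite := by
  obtain ⟨n, hn⟩ := pow_unbounded_of_one_lt (C / a) hb
  obtain ⟨m, hm⟩ := pow_unbounded_of_one_lt (C * a) hb
  have hb0 : 0 < b := by linarith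
  refine (Set.finite_Ioo (-(m : ℤ)) n).subset ?_
  rintro k ⟨h1, h2⟩
  constructor
  · by_contra h
    rw [not_lt] at h
    have h3 : b ^ k ≤ b ^ (-(m : ℤ)) := zpow_le_zpow_right₀ hb.le h
    rw [_root_.zpow_neg, zpow_natCast] at h3
    have h4 : (b ^ (m : ℕ)) ≤ (b ^ k)⁻¹ := by
      rw [le_inv_comm₀ (by positivity) (by positivity)]; exact h3
    rw [mul_inv] at h2
    have h5 : a⁻¹ * b ^ m ≤ C := le_trans (mul_le_mul_of_nonneg_left h4 (by positivity)) h2
    rw [inv_mul_le_iff₀ ha] at h5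
    linarith
  · by_contra h
    rw [not_lt] at h
    have h3 : b ^ (n : ℤ) ≤ b ^ k := zpow_le_zpow_right₀ hb.le h
    rw [zpow_natCast] at h3
    rw [div_lt_iff₀ ha] at hn
    nlinarith

theorem compact_sz {K : Set (HomSpace (⊥ : Subgroup GG))} (hK : IsCompact K) :
    ∃ C : ℝ, 0 < C ∧ ∀ x ∈ K, sz (unproj x) ≤ C ∧ (sz (unproj x))⁻¹ ≤ C := by
  have hc : Continuous fun x : HomSpace (⊥ : Subgroup GG) => sz (unproj x) :=
    continuous_sz.comp hproj.symm.continuous
  have hc2 : Continuous fun x : HomSpace (⊥ : Subgroup GG) => (sz (unproj x))⁻¹ :=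
    hc.inv₀ (fun x => (sz_pos _).ne')
  obtain ⟨A, hA⟩ := (hK.image hc).bddAbove
  obtain ⟨B, hB⟩ := (hK.image hc2).bddAbove
  refine ⟨max 1 (max A B), by positivity, fun x hx => ⟨?_, ?_⟩⟩
  · exact (hA (Set.mem_image_of_mem _ hx)).trans (by simp)
  · exact (hB (Set.mem_image_of_mem _ hx)).trans (by simp)

theorem properFree_of_good {φ : DihedralGroup 0 →* GG} {a b : ℝˣ} (h : Good φ a b) :
    ProperFree (⊥ : Subgroup GG) φ.range := by
  constructor
  · intro K hK
    obtain ⟨C, hC0, hC⟩ := compact_sz hK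
    have hb0 : 0 < (b : ℝ) := by linarith [h.hb]
    have f1 := finite_zpow one_pos h.hb (C * C)
    have f2 := finite_zpow h.ha h.hb (C * C)
    have F1 : ((fun k : ℤ => φ (DihedralGroup.r (k : ZMod 0))) ''
      {k : ℤ | 1 * (b : ℝ) ^ k ≤ C * C ∧ (1 * (b : ℝ) ^ k)⁻¹ ≤ C * C}).Finite := f1.image _
    have F2 : ((fun k : ℤ => φ (DihedralGroup.sr (k : ZMod 0))) ''
      {k : ℤ | (a : ℝ) * (b : ℝ) ^ k ≤ C * C ∧ ((a : ℝ) * (b : ℝ) ^ k)⁻¹ ≤ C * C}).Finite := f2.image _
    refine (F1.union F2).subset ?_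
    rintro γ ⟨⟨δ, rfl⟩, y, ⟨x, hx, hxy⟩, hy⟩
    obtain ⟨hx1, hx2⟩ := hC x hx
    obtain ⟨hy1, hy2⟩ := hC y hy
    have hxy' : unproj y = φ δ * unproj x := by
      rw [← hxy]; exact unproj_smul _ _
    have px := sz_pos (unproj x)
    have py := sz_pos (unproj y)
    rcases δ with k | k
    · left
      refine ⟨zi k, ⟨?_, ?_⟩, ?_⟩
      · rw [h.hr, ] at hxy'
        have e := congrArg sz hxy'
        rw [sz_dR_mul, Units.val_zpow_eq_zpow_val, abs_of_pos (by positivity)] at e
        rw [one_mul]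
        have : (b : ℝ) ^ zi k = sz (unproj y) * (sz (unproj x))⁻¹ := by
          rw [e, mul_assoc, mul_inv_cancel₀ px.ne', mul_one]
        rw [this]
        exact mul_le_mul hy1 hx2 (by positivity) hC0.le
      · rw [h.hr, ] at hxy'
        have e := congrArg sz hxy'
        rw [sz_dR_mul, Units.val_zpow_eq_zpow_val, abs_of_pos (by positivity)] at e
        rw [one_mul]
        have : ((b : ℝ) ^ zi k)⁻¹ = sz (unproj x) * (sz (unproj y))⁻¹ := by
          rw [e, mul_inv, mul_left_comm, mul_inv_cancel₀ px.ne', mul_one]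
        rw [this]
        exact mul_le_mul hx1 hy2 (by positivity) hC0.le
      · rfl
    · right
      refine ⟨zi k, ⟨?_, ?_⟩, ?_⟩
      · rw [h.hsr, mul_assoc] at hxy'
        have e := congrArg sz hxy'
        rw [sz_sU_mul, sz_dR_mul, Units.val_mul, Units.val_zpow_eq_zpow_val, abs_of_pos
          (mul_pos h.ha (by positivity))] at e
        have : (a : ℝ) * (b : ℝ) ^ zi k = (sz (unproj y))⁻¹ * (sz (unproj x))⁻¹ := by
          rw [e, inv_inv, mul_assoc ((a : ℝ) * _), mul_inv_cancel₀ px.ne', mul_one]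
        rw [this]
        exact mul_le_mul hy2 hx2 (by positivity) hC0.le
      · rw [h.hsr, mul_assoc] at hxy'
        have e := congrArg sz hxy'
        rw [sz_sU_mul, sz_dR_mul, Units.val_mul, Units.val_zpow_eq_zpow_val, abs_of_pos
          (mul_pos h.ha (by positivity))] at e
        have : ((a : ℝ) * (b : ℝ) ^ zi k)⁻¹ = sz (unproj y) * sz (unproj x) := by
          rw [e, mul_inv ((a : ℝ) * (b : ℝ) ^ zi k) (sz (unproj x)), mul_assoc, inv_mul_cancel₀ px.ne',
            mul_one]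
        rw [this]
        exact mul_le_mul hy1 hx1 (by positivity) hC0.le
      · rfl
  · intro γ _ x hx
    have := congrArg unproj hx
    rw [unproj_smul] at this
    exact mul_eq_right.mp this

theorem chi_of_good {φ : DihedralGroup 0 →* GG} {a b : ℝˣ} (h : Good φ a b) (δ : DihedralGroup 0) :
    chi (φ δ) = 1 := by
  have key : ∀ x : ℝˣ, ((x : ℝ) : ℂ) * (conj (((x : ℝ) : ℂ)))⁻¹ = 1 := by
    intro x
    rw [Complex.conj_ofReal, mul_inv_cancel₀]
    exact_mod_cast x.ne_zero
  rcases δ with k | k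
  · rw [h.hr, dR_apply, chi_dU, val_ofR, key]
  · rw [h.hsr, dR_apply, chi_sU_mul_dU, val_ofR, key]

/-- the unit `2` of `ℝ` -/
def two : ℝˣ := Units.mk0 2 two_ne_zero

theorem val_two : (two : ℝ) = 2 := rfl

theorem val_two_zpow (k : ℤ) : ((two ^ k : ℝˣ) : ℝ) = 2 ^ k := by
  rw [Units.val_zpow_eq_zpow_val, val_two]

theorem ent_dih_r (k : ZMod 0) : ent GG.subtype (dih two (DihedralGroup.r k)) 0 0 = (((2 : ℝ) ^ zi k : ℝ) : ℂ) := by
  rw [dih_r, dR_apply, (ent_dU _).1, val_ofR, val_two_zpow]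

theorem ent_dih_sr (k : ZMod 0) : ent GG.subtype (dih two (DihedralGroup.sr k)) 0 0 = 0 := by
  rw [dih_sr, dR_apply, (ent_sU_dU _).1]

theorem ent_one : ent GG.subtype (1 : GG) 0 0 = 1 := by
  rw [← dU_one, (ent_dU _).1, Units.val_one]

theorem near_one {δ : DihedralGroup 0} (h : ‖ent GG.subtype (dih two δ) 0 0 - 1‖ < 1 / 2) : δ = 1 := by
  rcases δ with k | k
  · rw [ent_dih_r, ← Complex.ofReal_one, ← Complex.ofReal_sub, Complex.norm_real, Real.norm_eq_abs,
      abs_lt] at h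
    have h0 : zi k = 0 := by
      rcases lt_trichotomy (zi k) 0 with h1 | h1 | h1
      · exfalso
        have h2 : (2 : ℝ) ^ zi k ≤ 2 ^ (-1 : ℤ) := zpow_le_zpow_right₀ one_le_two (by omega)
        rw [_root_.zpow_neg_one] at h2
        linarith [h.1]
      · exact h1
      · exfalso
        have h2 : (2 : ℝ) ^ (1 : ℤ) ≤ 2 ^ zi k := zpow_le_zpow_right₀ one_le_two (by omega)
        rw [zpow_one] at h2
        linarith [h.2]
    change k = 0 at h0
    rw [h0, DihedralGroup.r_zero]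
  · exfalso
    rw [ent_dih_sr, zero_sub, norm_neg, norm_one] at h
    norm_num at h

theorem dih_injective : Function.Injective (dih two) := by
  rw [injective_iff_map_eq_one]
  intro δ h
  apply near_one
  rw [h, ent_one]
  norm_num

theorem discrete_dih : DiscreteTopology (dih two).range := by
  apply discreteTopology_of_isOpen_singleton_one
  have hU : IsOpen {g : GG | ‖ent GG.subtype g 0 0 - 1‖ < 1 / 2} :=
    isOpen_lt ((continuous_ent 0 0).sub continuous_const).norm continuous_const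
  have h2 : ({1} : Set (dih two).range) = Subtype.val ⁻¹' {g : GG | ‖ent GG.subtype g 0 0 - 1‖ < 1 / 2} := by
    ext ⟨g, δ, rfl⟩
    constructor
    · intro h
      rw [Set.mem_singleton_iff] at h
      have h3 : dih two δ = 1 := congrArg Subtype.val h
      change ‖ent GG.subtype (dih two δ) 0 0 - 1‖ < 1 / 2
      rw [h3, ent_one]
      norm_num
    · intro h
      have h3 := near_one h
      rw [Set.mem_singleton_iff]
      apply Subtype.ext
      change dih two δ = 1
      rw [h3, map_one]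
  rw [h2]
  exact hU.preimage continuous_subtype_val

theorem two_gt : 1 < (two : ℝ) := by rw [val_two]; norm_num

theorem discontinuous_dih : IsDiscontinuousGroup (⊥ : Subgroup GG) (dih two).range :=
  ⟨discrete_dih, properFree_of_good (good_dih two two_gt)⟩

theorem stable_dih : StableUnderSmallDeformations (⊥ : Subgroup GG) (dih two) := by
  obtain ⟨U, hU, h⟩ := good_near
  refine ⟨U, hU, fun φ hφ => ?_⟩
  obtain ⟨a, b, hg⟩ := h φ hφ
  exact properFree_of_good hg

theorem fg_dih : Group.FG (DihedralGroup 0) := by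
  rw [Group.fg_iff]
  refine ⟨{DihedralGroup.r 1, DihedralGroup.sr 0}, ?_, Set.toFinite _⟩
  rw [eq_top_iff]
  have h1 : ∀ k : ZMod 0, DihedralGroup.r k ∈ Subgroup.closure
      ({DihedralGroup.r 1, DihedralGroup.sr 0} : Set (DihedralGroup 0)) := by
    intro k
    have : (DihedralGroup.r k : DihedralGroup 0) = DihedralGroup.r 1 ^ zi k := by
      rw [DihedralGroup.r_one_zpow]
      congr 1
    rw [this]
    exact Subgroup.zpow_mem _ (Subgroup.subset_closure (by simp)) _
  rintro (k | k) _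
  · exact h1 k
  · have : (DihedralGroup.sr k : DihedralGroup 0) = DihedralGroup.sr 0 * DihedralGroup.r k := by
      rw [DihedralGroup.sr_mul_r, zero_add]
    rw [this]
    exact Subgroup.mul_mem _ (Subgroup.subset_closure (by simp)) (h1 k)

theorem ne0 (t : unitInterval) : (2 : ℝ) + t ≠ 0 := by
  have := t.2.1
  positivity

theorem deform_dih : NontrivialDeformations (dih two) := by
  refine ⟨fun t => dih (Units.mk0 (2 + t) (ne0 t)), ?_, ?_, 1, ?_⟩
  · have hc : Continuous fun t : unitInterval => Units.mk0 (2 + (t : ℝ)) (ne0 t) := by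
      rw [Units.continuous_iff]
      constructor
      · exact continuous_const.add continuous_subtype_val
      · have : Continuous fun t : unitInterval => (2 + (t : ℝ))⁻¹ :=
          (continuous_const.add continuous_subtype_val).inv₀ ne0
        exact this
    rintro (k | k)
    · exact continuous_dR.comp (hc.zpow (zi k))
    · exact continuous_const.mul (continuous_dR.comp (hc.zpow (zi k)))
  · have : Units.mk0 (2 + ((0 : unitInterval) : ℝ)) (ne0 0) = two := by
      apply Units.ext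
      change 2 + (0 : ℝ) = 2
      norm_num
    simp only [this]
  · rintro ⟨g, hg⟩
    have h1 := hg (DihedralGroup.r 1)
    rw [dih_r, dih_r] at h1
    have hz : zi 1 = 1 := rfl
    rw [hz, zpow_one, zpow_one, dR_apply, dR_apply] at h1
    have h2 := congrArg (fun g : GG => ((g : GLn (Fin 2)).val).trace) h1
    simp only [Subgroup.coe_mul, Units.val_mul, InvMemClass.coe_inv] at h2
    rw [Matrix.trace_units_conj, val_dU, val_dU, val_ofR, val_ofR, dg, dg, Matrix.trace_fin_two,
      Matrix.trace_fin_two] at h2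
    have h3 : (starRingEnd ℂ) 2 = 2 := map_ofNat _ 2
    simp [val_two, h3] at h2
    norm_num at h2

end Example3

noncomputable section Example4

instance : MeasurableSpace GG := borel GG
instance : BorelSpace GG := ⟨rfl⟩

/-- the invariant measure on `G/H` -/
def mu : Measure (HomSpace (⊥ : Subgroup GG)) := Measure.map hproj (Measure.haar : Measure GG)

theorem measurable_hproj : Measurable (hproj : GG → HomSpace (⊥ : Subgroup GG)) := hproj.continuous.measurable

instance : (mu).Regular := Measure.Regular.map hproj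

theorem mu_apply {s : Set (HomSpace (⊥ : Subgroup GG))} (hs : MeasurableSet s) :
    mu s = (Measure.haar : Measure GG) (hproj ⁻¹' s) := Measure.map_apply measurable_hproj hs

theorem invariantRadon_mu : IsInvariantRadon mu where
  ne_zero := by
    intro h
    have h1 : mu Set.univ = 0 := by rw [h]; rfl
    rw [mu_apply MeasurableSet.univ, Set.preimage_univ] at h1
    exact (isOpen_univ.measure_ne_zero _ Set.univ_nonempty) h1
  lt_top := fun K hK => hK.measure_lt_top
  regular := inferInstance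
  invariant := by
    intro g s hs
    have hm : Measurable (fun x : HomSpace (⊥ : Subgroup GG) => g • x) := by
      have : Continuous (fun x : HomSpace (⊥ : Subgroup GG) => g • x) := by
        have h2 : (fun x : HomSpace (⊥ : Subgroup GG) => g • x) = fun x => hproj (g * hproj.symm x) := by
          funext x
          exact (proj_unproj (g • x)).symm.trans (by rw [unproj_smul]; rfl)
        rw [h2]
        exact hproj.continuous.comp (continuous_const.mul hproj.symm.continuous)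
      exact this.measurable
    rw [mu_apply (hm hs), mu_apply hs]
    have : hproj ⁻¹' ((fun x : HomSpace (⊥ : Subgroup GG) => g • x) ⁻¹' s) = (fun h : GG => g * h) ⁻¹' (hproj ⁻¹' s) := rfl
    rw [this]
    exact measure_preimage_mul _ g _

/-- the fundamental domain -/
def dom (b : ℝ) : Set (HomSpace (⊥ : Subgroup GG)) :=
  {x | ent GG.subtype (unproj x) 1 0 = 0 ∧ 1 ≤ sz (unproj x) ∧ sz (unproj x) < b}

theorem measurable_dom (b : ℝ) : MeasurableSet (dom b) := by
  have h1 : Continuous fun x : HomSpace (⊥ : Subgroup GG) => ent GG.subtype (unproj x) 1 0 :=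
    (continuous_ent 1 0).comp hproj.symm.continuous
  have h2 : Continuous fun x : HomSpace (⊥ : Subgroup GG) => sz (unproj x) :=
    continuous_sz.comp hproj.symm.continuous
  have h3 : MeasurableSet {x : HomSpace (⊥ : Subgroup GG) | ent GG.subtype (unproj x) 1 0 = 0} :=
    (isClosed_eq h1 continuous_const).measurableSet
  have h4 : MeasurableSet {x : HomSpace (⊥ : Subgroup GG) | 1 ≤ sz (unproj x)} :=
    (isClosed_le continuous_const h2).measurableSet
  have h5 : MeasurableSet {x : HomSpace (⊥ : Subgroup GG) | sz (unproj x) < b} :=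
    (isOpen_lt h2 continuous_const).measurableSet
  exact h3.inter (h4.inter h5)

theorem exists_unique_zpow {y b : ℝ} (hy : 0 < y) (hb : 1 < b) :
    ∃ k : ℤ, (1 ≤ b ^ k * y ∧ b ^ k * y < b) ∧ ∀ l : ℤ, (1 ≤ b ^ l * y ∧ b ^ l * y < b) → l = k := by
  obtain ⟨k, hk⟩ := exists_mem_Ico_zpow hy hb
  have hb0 : 0 < b := by linarith
  have hiff : ∀ l : ℤ, (1 ≤ b ^ l * y ∧ b ^ l * y < b) ↔ (b ^ (-l) ≤ y ∧ y < b ^ (-l + 1)) := by
    intro l
    have hp : 0 < b ^ l := by positivity
    rw [zpow_add₀ hb0.ne', _root_.zpow_neg, zpow_one, inv_le_iff_one_le_mul₀' hp, inv_mul_eq_div,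
      lt_div_iff₀' hp]
  refine ⟨-k, (hiff _).mpr (by rw [neg_neg]; exact ⟨hk.1, hk.2⟩), fun l hl => ?_⟩
  rw [hiff] at hl
  have h1 : b ^ (-l) < b ^ (k + 1) := lt_of_le_of_lt hl.1 hk.2
  have h2 : b ^ k < b ^ (-l + 1) := lt_of_le_of_lt hk.1 hl.2
  rw [zpow_lt_zpow_iff_right₀ hb] at h1 h2
  omega

theorem sdsd (w z : ℂˣ) : sU * dU w * (sU * dU z) = dU (cinv w * z) := by
  rw [mul_assoc, ← mul_assoc (dU w), dU_mul_sU, mul_assoc sU, ← mul_assoc sU sU, sU_mul_sU, one_mul,
    ← dU_mul]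

theorem fundamental {φ : DihedralGroup 0 →* GG} {a b : ℝˣ} (h : Good φ a b) :
    IsFundamentalDomain φ.range (dom b) mu := by
  have ha := h.ha
  have hb0 : 0 < (b : ℝ) := by linarith [h.hb]
  refine IsFundamentalDomain.mk' (measurable_dom b).nullMeasurableSet ?_
  intro x
  have hm : ∀ δ : DihedralGroup 0, ((⟨φ δ, δ, rfl⟩ : φ.range) • x ∈ dom b) ↔
      (ent GG.subtype (φ δ * unproj x) 1 0 = 0 ∧ 1 ≤ sz (φ δ * unproj x) ∧ sz (φ δ * unproj x) < b) := by
    intro δ
    have : unproj ((⟨φ δ, δ, rfl⟩ : φ.range) • x) = φ δ * unproj x := unproj_smul _ _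
    rw [← this]
    rfl
  have hr : ∀ k : ZMod 0, φ (DihedralGroup.r k) = dU (Units.map (Complex.ofRealHom : ℝ →* ℂ) (b ^ zi k)) := by
    intro k; rw [h.hr, dR_apply]
  have hsr : ∀ k : ZMod 0, φ (DihedralGroup.sr k) =
      sU * dU (Units.map (Complex.ofRealHom : ℝ →* ℂ) (a * b ^ zi k)) := by
    intro k; rw [h.hsr, dR_apply]
  rcases GG_cases (unproj x) with ⟨z, hz⟩ | ⟨z, hz⟩
  · obtain ⟨k, hk, hk'⟩ := exists_unique_zpow (norm_pos_iff.mpr z.ne_zero) h.hb
    refine ⟨⟨φ (DihedralGroup.r (k : ZMod 0)), _, rfl⟩, (hm _).mpr ?_, ?_⟩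
    · rw [h.hr, sz_dR_mul, hz, sz_dU, Units.val_zpow_eq_zpow_val, abs_of_pos (by positivity)]
      refine ⟨?_, hk⟩
      rw [dR_apply, ← dU_mul, (ent_dU _).2.2.1]
    · rintro ⟨_, δ, rfl⟩ hδ
      rw [hm] at hδ
      rcases δ with l | l
      · rw [h.hr, sz_dR_mul, hz, sz_dU, Units.val_zpow_eq_zpow_val, abs_of_pos (by positivity)] at hδ
        have := hk' _ hδ.2
        have h3 : l = (k : ZMod 0) := this
        simp only [h3]
      · exfalso
        have h4 := hδ.1
        rw [hsr, hz, mul_assoc, ← dU_mul, (ent_sU_dU _).2.2.1] at h4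
        exact (Units.ne_zero _) h4
  · have hpz : 0 < (a : ℝ)⁻¹ * ‖(z : ℂ)‖ := mul_pos (inv_pos.mpr ha) (norm_pos_iff.mpr z.ne_zero)
    obtain ⟨k, hk, hk'⟩ := exists_unique_zpow hpz h.hb
    have e : ∀ l : ℤ, (|((a * b ^ l : ℝˣ) : ℝ)| * ‖(z : ℂ)‖⁻¹)⁻¹ = (b : ℝ) ^ (-l) * ((a : ℝ)⁻¹ * ‖(z : ℂ)‖) := by
      intro l
      rw [Units.val_mul, Units.val_zpow_eq_zpow_val, abs_of_pos (mul_pos ha (by positivity)), mul_inv, inv_inv,
        mul_inv, _root_.zpow_neg]
      ring
    refine ⟨⟨φ (DihedralGroup.sr ((-k : ℤ) : ZMod 0)), _, rfl⟩, (hm _).mpr ?_, ?_⟩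
    · rw [h.hsr, mul_assoc, sz_sU_mul, sz_dR_mul, hz, sz_sU_dU, e]
      refine ⟨?_, ?_⟩
      · rw [dR_apply, ← mul_assoc, sdsd, (ent_dU _).2.2.1]
      · have : zi ((-k : ℤ) : ZMod 0) = -k := rfl
        rw [this, neg_neg]
        exact hk
    · rintro ⟨_, δ, rfl⟩ hδ
      rw [hm] at hδ
      rcases δ with l | l
      · exfalso
        have h4 := hδ.1
        rw [hr, hz, ← mul_assoc, dU_mul_sU, mul_assoc, ← dU_mul, (ent_sU_dU _).2.2.1] at h4
        exact (Units.ne_zero _) h4
      · rw [h.hsr, mul_assoc, sz_sU_mul, sz_dR_mul, hz, sz_sU_dU, e] at hδ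
        have := hk' _ hδ.2
        have h3 : l = ((-k : ℤ) : ZMod 0) := by
          change zi l = -k
          omega
        simp only [h3]

theorem compact_ball (C : ℝ) : IsCompact {z : ℂˣ | ‖(z : ℂ)‖ ≤ C ∧ ‖((z⁻¹ : ℂˣ) : ℂ)‖ ≤ C} := by
  have h1 : IsCompact (Metric.closedBall (0 : ℂ) C ×ˢ (MulOpposite.op '' Metric.closedBall (0 : ℂ) C)) :=
    (isCompact_closedBall _ _).prod ((isCompact_closedBall _ _).image MulOpposite.continuous_op)
  have h2 := (Units.isClosedEmbedding_embedProduct (α := ℂ)).isCompact_preimage h1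
  refine h2.of_isClosed_subset ?_ ?_
  · refine IsClosed.inter ?_ ?_
    · exact isClosed_le Units.continuous_val.norm continuous_const
    · exact isClosed_le (Units.continuous_val.comp continuous_inv).norm continuous_const
  · rintro z ⟨hz1, hz2⟩
    constructor
    · simpa using hz1
    · exact ⟨_, by simpa using hz2, rfl⟩

theorem mu_dom (b : ℝ) : mu (dom b) < ⊤ := by
  have hK : IsCompact ((fun z => proj (⊥ : Subgroup GG) (dU z)) ''
      {z : ℂˣ | ‖(z : ℂ)‖ ≤ max b 1 ∧ ‖((z⁻¹ : ℂˣ) : ℂ)‖ ≤ max b 1}) :=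
    (compact_ball _).image (hproj.continuous.comp continuous_dU)
  refine lt_of_le_of_lt (measure_mono ?_) hK.measure_lt_top
  rintro x ⟨h1, h2, h3⟩
  rcases GG_cases (unproj x) with ⟨z, hz⟩ | ⟨z, hz⟩
  · refine ⟨z, ⟨?_, ?_⟩, ?_⟩
    · rw [hz, sz_dU] at h3
      exact h3.le.trans (le_max_left _ _)
    · rw [hz, sz_dU] at h2
      rw [Units.val_inv_eq_inv_val, norm_inv]
      exact (inv_le_one_of_one_le₀ h2).trans (le_max_right _ _)
    · change proj ⊥ (dU z) = x
      rw [← hz, proj_unproj]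
  · exfalso
    rw [hz, (ent_sU_dU _).2.2.1] at h1
    exact (Units.ne_zero _) h1

theorem continuous_efun (m : ℕ) : Continuous (efun m).fn := by
  have : Continuous chi :=
    ((continuous_ent 0 0).mul (continuous_ent 1 1)).add ((continuous_ent 0 1).mul (continuous_ent 1 0))
  exact (this.comp hproj.symm.continuous).pow m

theorem eigenspace_ne {φ : DihedralGroup 0 →* GG} {a b : ℝˣ} (h : Good φ a b) (m : ℕ) :
    EigenspaceNeZero mu φ.range (lam m) := by
  refine ⟨(efun m).fn, (continuous_efun m).aestronglyMeasurable, ?_, ⟨dom b, fundamental h, ?_⟩, ?_, ?_⟩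
  · rintro _ ⟨δ, rfl⟩ x
    rw [efun_smul, chi_of_good h, one_pow, one_mul]
  · have : ∀ x, ‖(efun m).fn x‖ₑ ^ 2 = 1 := by
      intro x
      rw [← ofReal_norm, norm_efun, ENNReal.ofReal_one, one_pow]
    simp only [this]
    rw [lintegral_one, Measure.restrict_apply_univ]
    exact mu_dom b
  · intro D hDi ψ ψ' _ _ hD
    have h1 := hD (efun m)
    calc ∫ x, (efun m).fn x * ψ'.fn x ∂mu = ∫ x, ψ'.fn x * (efun m).fn x ∂mu := by
          simp only [mul_comm]
      _ = ∫ x, ψ.fn x * (D (efun m)).fn x ∂mu := h1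
      _ = ∫ x, lam m (DAlg.of D hDi) * ((efun m).fn x * ψ.fn x) ∂mu := by
          congr 1
          funext x
          have h2 := eigen' (DAlg.of D hDi) m x
          change (D (efun m)).fn x = _ at h2
          rw [h2]
          ring
      _ = _ := integral_const_mul _ _
  · intro h0
    have h1 : ∀ᵐ x ∂mu, False := by
      filter_upwards [h0] with x hx
      have := norm_efun m x
      rw [hx] at this
      simp at this
    have h2 : mu = 0 := by simpa using h1
    exact invariantRadon_mu.ne_zero h2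

theorem stableSpectrum (m : ℕ) : IsStableSpectrum mu (dih two) (lam m) := by
  obtain ⟨U, hU, h⟩ := good_near
  refine ⟨U, hU, fun φ hφ => ?_⟩
  obtain ⟨a, b, hg⟩ := h φ hφ
  exact eigenspace_ne hg m

theorem infinite_stable : {l : Chr GG.subtype ⊥ | IsStableSpectrum mu (dih two) l}.Infinite :=
  (Set.infinite_range_of_injective lam_injective).mono (by rintro _ ⟨m, rfl⟩; exact stableSpectrum m)

end Example4

noncomputable section Schur

variable {E : Type} [NormedAddCommGroup E] [InnerProductSpace ℂ E] [CompleteSpace E]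

theorem schur [Nontrivial E] {G : Type} [Group G] (π : G →* (E ≃ₗᵢ[ℂ] E))
    (hirr : ∀ W : Submodule ℂ E, IsClosed (W : Set E) → (∀ g, ∀ w ∈ W, π g w ∈ W) → W = ⊥ ∨ W = ⊤)
    (S : E →L[ℂ] E) (hS : IsSelfAdjoint S) (hc : ∀ g v, S (π g v) = π g (S v)) :
    ∃ c : ℝ, ∀ v, S v = c • v := by
  have hcomm : ∀ f : ℝ → ℝ, ∀ g v, cfc f S (π g v) = π g (cfc f S v) := by
    intro f g v
    have h1 : Commute S ((π g).toContinuousLinearEquiv : E →L[ℂ] E) := by
      apply ContinuousLinearMap.ext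
      intro w
      exact hc g w
    have h2 := h1.cfc_real f
    exact congrArg (fun A : E →L[ℂ] E => A v) h2
  have hcf : ∀ f : ℝ → ℝ, Continuous f → (∃ x ∈ spectrum ℝ S, f x ≠ 0) → cfc f S ≠ 0 := by
    rintro f hf ⟨x, hx, hfx⟩ h0
    have h1 := cfc_map_spectrum f S (ha := hS) (hf := hf.continuousOn)
    rw [h0, spectrum.zero_eq] at h1
    have h2 : f x ∈ f '' spectrum ℝ S := ⟨x, hx, rfl⟩
    rw [← h1] at h2
    exact hfx h2
  have hsub : ∀ x ∈ spectrum ℝ S, ∀ y ∈ spectrum ℝ S, ¬ x < y := by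
    intro x hx y hy hxy
    have hf : Continuous fun s : ℝ => max ((x + y) / 2 - s) 0 := by fun_prop
    have hg : Continuous fun s : ℝ => max (s - (x + y) / 2) 0 := by fun_prop
    have nf := hcf _ hf ⟨x, hx, by
      have : 0 < max ((x + y) / 2 - x) 0 := lt_max_of_lt_left (by linarith)
      exact this.ne'⟩
    have ng := hcf _ hg ⟨y, hy, by
      have : 0 < max (y - (x + y) / 2) 0 := lt_max_of_lt_left (by linarith)
      exact this.ne'⟩
    have hfg : cfc (fun s : ℝ => max ((x + y) / 2 - s) 0) S * cfc (fun s : ℝ => max (s - (x + y) / 2) 0) S = 0 := by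
      rw [← cfc_mul _ _ S hf.continuousOn hg.continuousOn]
      have : (fun s : ℝ => max ((x + y) / 2 - s) 0 * max (s - (x + y) / 2) 0) = fun _ => 0 := by
        funext s
        rcases le_total s ((x + y) / 2) with h | h
        · rw [max_eq_right (by linarith : s - (x + y) / 2 ≤ 0), mul_zero]
        · rw [max_eq_right (by linarith : (x + y) / 2 - s ≤ 0), zero_mul]
      rw [this]
      exact cfc_const_zero ℝ S
    have hW := hirr (LinearMap.ker (cfc (fun s : ℝ => max ((x + y) / 2 - s) 0) S).toLinearMap)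
      (ContinuousLinearMap.isClosed_ker (cfc (fun s : ℝ => max ((x + y) / 2 - s) 0) S)) (by
        intro g w hw
        have hw' : cfc (fun s : ℝ => max ((x + y) / 2 - s) 0) S w = 0 := hw
        change cfc (fun s : ℝ => max ((x + y) / 2 - s) 0) S (π g w) = 0
        rw [hcomm, hw', map_zero])
    rcases hW with hW | hW
    · apply ng
      apply ContinuousLinearMap.ext
      intro v
      have h1 : cfc (fun s : ℝ => max (s - (x + y) / 2) 0) S v ∈
          LinearMap.ker (cfc (fun s : ℝ => max ((x + y) / 2 - s) 0) S).toLinearMap :=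
        congrArg (fun A : E →L[ℂ] E => A v) hfg
      rw [hW] at h1
      exact h1
    · apply nf
      apply ContinuousLinearMap.ext
      intro v
      have h1 : v ∈ LinearMap.ker (cfc (fun s : ℝ => max ((x + y) / 2 - s) 0) S).toLinearMap := by
        rw [hW]; trivial
      exact h1
  obtain ⟨c, hcs⟩ := ContinuousFunctionalCalculus.spectrum_nonempty (R := ℝ) S hS
  refine ⟨c, fun v => ?_⟩
  have h1 : S = algebraMap ℝ (E →L[ℂ] E) c := by
    conv_lhs => rw [← cfc_id ℝ S]
    rw [← cfc_const c S]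
    apply cfc_congr
    intro x hx
    rcases lt_trichotomy x c with h | h | h
    · exact absurd h (hsub x hx c hcs)
    · exact h
    · exact absurd h (hsub c hcs x hx)
  conv_lhs => rw [h1]
  rw [Algebra.algebraMap_eq_smul_one]
  rfl

/-- `π(g) + π(g⁻¹)` is a scalar if `g` is conjugated to itself or its inverse by all elements. -/
theorem scalar_pair [Nontrivial E] {G : Type} [Group G] (π : G →* (E ≃ₗᵢ[ℂ] E))
    (hirr : ∀ W : Submodule ℂ E, IsClosed (W : Set E) → (∀ g, ∀ w ∈ W, π g w ∈ W) → W = ⊥ ∨ W = ⊤)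
    (g : G) (hg : ∀ h : G, g * h = h * g ∧ g⁻¹ * h = h * g⁻¹ ∨ g * h = h * g⁻¹ ∧ g⁻¹ * h = h * g) :
    ∃ c : ℝ, ∀ v, π g v + π g⁻¹ v = c • v := by
  have key := schur π hirr (((π g).toContinuousLinearEquiv : E →L[ℂ] E) +
    ((π g⁻¹).toContinuousLinearEquiv : E →L[ℂ] E)) ?_ ?_
  · exact key
  · rw [ContinuousLinearMap.isSelfAdjoint_iff_isSymmetric]
    intro v w
    change inner ℂ (π g v + π g⁻¹ v) w = inner ℂ v (π g w + π g⁻¹ w)
    rw [inner_add_left, inner_add_right, add_comm]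
    have e1 : ∀ (k : G) (a b : E), inner ℂ (π k a) b = inner ℂ a (π k⁻¹ b) := by
      intro k a b
      rw [← (π k⁻¹).inner_map_map (π k a) b]
      congr 1
      have : π k⁻¹ (π k a) = (π k⁻¹ * π k) a := rfl
      rw [this, ← map_mul, inv_mul_cancel, map_one]
      rfl
    rw [e1 g, e1 g⁻¹, inv_inv]
  · intro h v
    change π g (π h v) + π g⁻¹ (π h v) = π h (π g v + π g⁻¹ v)
    have e2 : ∀ (a b : G), π a (π b v) = π (a * b) v := by
      intro a b; rw [map_mul]; rfl
    rw [map_add, e2, e2, e2, e2]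
    rcases hg h with ⟨h1, h2⟩ | ⟨h1, h2⟩
    · rw [h1, h2]
    · rw [h1, h2, add_comm]

end Schur

noncomputable section Disc

/-- a bounded part of the space -/
def box (R : ℝ) : Set (HomSpace (⊥ : Subgroup GG)) := {x | sz (unproj x) ≤ R ∧ (sz (unproj x))⁻¹ ≤ R}

theorem continuous_szu : Continuous fun x : HomSpace (⊥ : Subgroup GG) => sz (unproj x) :=
  continuous_sz.comp hproj.symm.continuous

theorem measurable_box (R : ℝ) : MeasurableSet (box R) := by
  have h2 := continuous_szu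
  have h3 : Continuous fun x : HomSpace (⊥ : Subgroup GG) => (sz (unproj x))⁻¹ := h2.inv₀ (fun x => (sz_pos _).ne')
  exact ((isClosed_le h2 continuous_const).inter (isClosed_le h3 continuous_const)).measurableSet

theorem continuous_smul_hom (g : GG) : Continuous (fun x : HomSpace (⊥ : Subgroup GG) => g • x) := by
  have h2 : (fun x : HomSpace (⊥ : Subgroup GG) => g • x) = fun x => hproj (g * hproj.symm x) := by
    funext x
    exact (proj_unproj (g • x)).symm.trans (by rw [unproj_smul]; rfl)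
  rw [h2]
  exact hproj.continuous.comp (continuous_const.mul hproj.symm.continuous)

theorem mp_smul (g : GG) : MeasurePreserving (fun x : HomSpace (⊥ : Subgroup GG) => g • x) mu mu := by
  refine ⟨(continuous_smul_hom g).measurable, ?_⟩
  ext s hs
  rw [Measure.map_apply (continuous_smul_hom g).measurable hs]
  exact invariantRadon_mu.invariant g s hs

theorem exists_box (ν : Measure (HomSpace (⊥ : Subgroup GG))) [IsFiniteMeasure ν] (hν : ν Set.univ ≠ 0) :
    ∃ R : ℝ, 1 ≤ R ∧ 4 * ν (box R)ᶜ < ν (box R) := by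
  by_contra hcon
  push Not at hcon
  have hmono : Monotone fun n : ℕ => box ((n : ℝ) + 1) := by
    intro m n hmn x hx
    have : (m : ℝ) ≤ n := by exact_mod_cast hmn
    exact ⟨hx.1.trans (by linarith), hx.2.trans (by linarith)⟩
  have hun : (⋃ n : ℕ, box ((n : ℝ) + 1)) = Set.univ := by
    rw [Set.eq_univ_iff_forall]
    intro x
    rw [Set.mem_iUnion]
    obtain ⟨n, hn⟩ := exists_nat_ge (max (sz (unproj x)) (sz (unproj x))⁻¹)
    refine ⟨n, ?_, ?_⟩
    · linarith [le_max_left (sz (unproj x)) (sz (unproj x))⁻¹]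
    · linarith [le_max_right (sz (unproj x)) (sz (unproj x))⁻¹]
  have t1 := tendsto_measure_iUnion_atTop (μ := ν) hmono
  rw [hun] at t1
  have t2 := tendsto_measure_iInter_atTop (μ := ν) (s := fun n : ℕ => (box ((n : ℝ) + 1))ᶜ)
    (fun n => (measurable_box _).compl.nullMeasurableSet)
    (fun m n hmn => Set.compl_subset_compl.mpr (hmono hmn)) ⟨0, measure_ne_top ν _⟩
  rw [← Set.compl_iUnion, hun, Set.compl_univ, measure_empty] at t2
  have t3 := ENNReal.Tendsto.const_mul (a := 4) t2 (Or.inr (by norm_num))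
  rw [mul_zero] at t3
  have h := le_of_tendsto_of_tendsto' t1 t3 (fun n => hcon ((n : ℝ) + 1) (by
    have : (0 : ℝ) ≤ n := Nat.cast_nonneg n
    linarith))
  exact hν (le_antisymm h bot_le)

theorem not_in_box {c : ℝˣ} {R : ℝ} (hR : 1 ≤ R) (hc : R * R < (c : ℝ)) {x : HomSpace (⊥ : Subgroup GG)} (hx : x ∈ box R) :
    dR c • x ∉ box R ∧ (dR c)⁻¹ • x ∉ box R := by
  have hc0 : 0 < (c : ℝ) := by nlinarith
  have hp := sz_pos (unproj x)
  obtain ⟨h1, h2⟩ := hx
  rw [inv_le_iff_one_le_mul₀ hp] at h2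
  constructor
  · rintro ⟨h3, _⟩
    rw [unproj_smul, sz_dR_mul, abs_of_pos hc0] at h3
    nlinarith
  · rintro ⟨_, h3⟩
    rw [unproj_smul, ← map_inv, sz_dR_mul, Units.val_inv_eq_inv_val, abs_of_pos (inv_pos.mpr hc0), mul_inv,
      inv_inv, ← div_eq_mul_inv, div_le_iff₀ hp] at h3
    nlinarith

theorem enorm_sq_add_le (a b : ℂ) : ‖a + b‖ₑ ^ 2 ≤ 2 * (‖a‖ₑ ^ 2 + ‖b‖ₑ ^ 2) := by
  rw [← ofReal_norm, ← ofReal_norm, ← ofReal_norm, ← ENNReal.ofReal_pow (norm_nonneg _),
    ← ENNReal.ofReal_pow (norm_nonneg _), ← ENNReal.ofReal_pow (norm_nonneg _),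
    ← ENNReal.ofReal_add (by positivity) (by positivity)]
  have h2 : (2 : ℝ≥0∞) = ENNReal.ofReal 2 := by norm_num
  rw [h2, ← ENNReal.ofReal_mul (by norm_num)]
  apply ENNReal.ofReal_le_ofReal
  have := norm_add_le a b
  have h0 := norm_nonneg (a + b)
  nlinarith [sq_nonneg (‖a‖ - ‖b‖), norm_nonneg a, norm_nonneg b]

theorem bound {f : HomSpace (⊥ : Subgroup GG) → ℂ} (hf : Measurable f) {d : ℝ} {g : GG} {B : Set (HomSpace (⊥ : Subgroup GG))}
    (hB : MeasurableSet B) (h : ∀ᵐ x ∂mu, f (g⁻¹ • x) + f (g • x) = (d : ℂ) * f x)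
    (h1 : ∀ x ∈ B, g • x ∉ B ∧ g⁻¹ • x ∉ B) :
    ENNReal.ofReal (d ^ 2) * (mu.withDensity fun x => ‖f x‖ₑ ^ 2) B ≤
      4 * (mu.withDensity fun x => ‖f x‖ₑ ^ 2) Bᶜ := by
  have hm : Measurable fun x => ‖f x‖ₑ ^ 2 := hf.enorm.pow_const 2
  have tr : ∀ k : GG, (∀ x ∈ B, k⁻¹ • x ∉ B) → ∫⁻ x in B, ‖f (k • x)‖ₑ ^ 2 ∂mu ≤
      (mu.withDensity fun x => ‖f x‖ₑ ^ 2) Bᶜ := by
    intro k hk
    have e1 := (mp_smul k).setLIntegral_comp_preimage
      ((continuous_smul_hom k⁻¹).measurable hB) hm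
    have e2 : (fun x : HomSpace (⊥ : Subgroup GG) => k • x) ⁻¹' ((fun x => k⁻¹ • x) ⁻¹' B) = B := by
      ext x
      simp only [Set.mem_preimage, inv_smul_smul]
    rw [e2] at e1
    rw [e1, ← withDensity_apply _ ((continuous_smul_hom k⁻¹).measurable hB)]
    apply measure_mono
    intro y hy hyB
    exact hk y hyB hy
  rw [withDensity_apply _ hB, ← lintegral_const_mul _ hm]
  calc ∫⁻ x in B, ENNReal.ofReal (d ^ 2) * ‖f x‖ₑ ^ 2 ∂mu
      = ∫⁻ x in B, ‖f (g⁻¹ • x) + f (g • x)‖ₑ ^ 2 ∂mu := by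
        apply lintegral_congr_ae
        filter_upwards [ae_restrict_of_ae h] with x hx
        rw [hx, enorm_mul, mul_pow]
        congr 1
        rw [← ofReal_norm, Complex.norm_real, ← ENNReal.ofReal_pow (norm_nonneg _), Real.norm_eq_abs, sq_abs]
    _ ≤ ∫⁻ x in B, 2 * (‖f (g⁻¹ • x)‖ₑ ^ 2 + ‖f (g • x)‖ₑ ^ 2) ∂mu :=
        lintegral_mono fun x => enorm_sq_add_le _ _
    _ = 2 * (∫⁻ x in B, ‖f (g⁻¹ • x)‖ₑ ^ 2 ∂mu + ∫⁻ x in B, ‖f (g • x)‖ₑ ^ 2 ∂mu) := by
        rw [lintegral_const_mul _, lintegral_add_left]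
        · exact (hf.comp (continuous_smul_hom g⁻¹).measurable).enorm.pow_const 2
        · exact ((hf.comp (continuous_smul_hom g⁻¹).measurable).enorm.pow_const 2).add
            ((hf.comp (continuous_smul_hom g).measurable).enorm.pow_const 2)
    _ ≤ 2 * ((mu.withDensity fun x => ‖f x‖ₑ ^ 2) Bᶜ + (mu.withDensity fun x => ‖f x‖ₑ ^ 2) Bᶜ) := by
        gcongr
        · exact tr g⁻¹ (fun x hx => by rw [inv_inv]; exact (h1 x hx).1)
        · exact tr g (fun x hx => (h1 x hx).2)
    _ = _ := by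
        rw [← two_mul, ← mul_assoc]
        norm_num

theorem dR_hg (c : ℝˣ) (h : GG) : dR c * h = h * dR c ∧ (dR c)⁻¹ * h = h * (dR c)⁻¹ ∨
    dR c * h = h * (dR c)⁻¹ ∧ (dR c)⁻¹ * h = h * dR c := by
  have k1 : ∀ (c : ℝˣ) (z : ℂˣ), dR c * dU z = dU z * dR c := by
    intro c z
    rw [dR_apply, ← dU_mul, ← dU_mul, mul_comm]
  have k2 : ∀ (c : ℝˣ) (z : ℂˣ), dR c * (sU * dU z) = sU * dU z * (dR c)⁻¹ := by
    intro c z
    rw [← mul_assoc, dR_mul_sU, mul_assoc, mul_assoc, k1, map_inv]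
  rcases GG_cases h with ⟨z, rfl⟩ | ⟨z, rfl⟩
  · left
    refine ⟨k1 c z, ?_⟩
    rw [← map_inv]
    exact k1 c⁻¹ z
  · right
    refine ⟨k2 c z, ?_⟩
    have := k2 c⁻¹ z
    rw [← map_inv, inv_inv] at this
    rw [← map_inv]
    exact this

theorem disc_empty : ¬ DiscNonempty mu := by
  rintro ⟨E, _, _, _, π, T, ⟨_, hnt, hirr⟩, hT, hint⟩
  obtain ⟨v, hv⟩ : ∃ v, T v ≠ 0 := by
    by_contra h
    push Not at h
    exact hT (ContinuousLinearMap.ext h)
  have hfm : Measurable (T v).fn := (Lp.stronglyMeasurable (show Lp ℂ 2 mu from T v)).measurable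
  have hm : Measurable fun x => ‖(T v).fn x‖ₑ ^ 2 := hfm.enorm.pow_const 2
  have hsc := fun c : ℝˣ => scalar_pair π hirr (dR c) (dR_hg c)
  choose d hd using hsc
  have hae : ∀ c : ℝˣ, ∀ᵐ x ∂mu, (T v).fn ((dR c)⁻¹ • x) +
      (T v).fn (dR c • x) = (d c : ℂ) * (T v).fn x := by
    intro c
    have e1 : T (π (dR c) v) + T (π (dR c)⁻¹ v) = (d c : ℂ) • T v := by
      rw [← map_add, hd c v, ← map_smul]
      congr 1
    have e2 : (T (π (dR c) v) + T (π (dR c)⁻¹ v)).fn =ᵐ[mu] (T (π (dR c) v)).fn + (T (π (dR c)⁻¹ v)).fn :=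
      Lp.coeFn_add (show Lp ℂ 2 mu from T (π (dR c) v)) (show Lp ℂ 2 mu from T (π (dR c)⁻¹ v))
    have e3 : ((d c : ℂ) • T v).fn =ᵐ[mu] (d c : ℂ) • (T v).fn :=
      Lp.coeFn_smul (d c : ℂ) (show Lp ℂ 2 mu from T v)
    rw [← e1] at e3
    filter_upwards [e2, e3, hint (dR c) v, hint (dR c)⁻¹ v] with x h2 h3 h4 h5
    rw [h2, Pi.add_apply, h4, h5, inv_inv] at h3
    exact h3
  have hfin : IsFiniteMeasure (mu.withDensity fun x => ‖(T v).fn x‖ₑ ^ 2) := by
    apply isFiniteMeasure_withDensity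
    have h1 : eLpNorm (T v).fn 2 mu < ⊤ := (Lp.memLp (show Lp ℂ 2 mu from T v)).2
    rw [eLpNorm_lt_top_iff_lintegral_rpow_enorm_lt_top (by norm_num) (by norm_num)] at h1
    simpa using h1.ne
  have hne : (mu.withDensity fun x => ‖(T v).fn x‖ₑ ^ 2) Set.univ ≠ 0 := by
    rw [withDensity_apply _ MeasurableSet.univ, Measure.restrict_univ]
    intro h0
    rw [lintegral_eq_zero_iff hm] at h0
    apply hv
    refine (Lp.eq_zero_iff_ae_eq_zero (f := (show Lp ℂ 2 mu from T v))).mpr ?_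
    change (T v).fn =ᵐ[mu] 0
    filter_upwards [h0] with x hx
    simpa using hx
  obtain ⟨R, hR, hbox⟩ := exists_box _ hne
  have hsmall : ∀ c : ℝˣ, R * R < (c : ℝ) → d c ^ 2 < 1 := by
    intro c hc
    have hb := bound hfm (measurable_box R) (hae c) (fun x hx => not_in_box hR hc hx)
    have hlt := lt_of_le_of_lt hb hbox
    by_contra hcon
    rw [not_lt] at hcon
    have h1 : (1 : ℝ≥0∞) ≤ ENNReal.ofReal (d c ^ 2) := by
      rw [← ENNReal.ofReal_one]
      exact ENNReal.ofReal_le_ofReal hcon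
    have h2 := mul_le_mul_left h1 ((mu.withDensity fun x => ‖(T v).fn x‖ₑ ^ 2) (box R))
    rw [one_mul] at h2
    exact absurd hlt (not_lt.mpr h2)
  have hc0 : R * R + 1 ≠ 0 := by positivity
  have s1 := hsmall (Units.mk0 (R * R + 1) hc0) (by simp)
  have s2 := hsmall (Units.mk0 (R * R + 1) hc0 * Units.mk0 (R * R + 1) hc0) (by
    change R * R < (R * R + 1) * (R * R + 1)
    nlinarith [mul_self_nonneg R])
  set c := Units.mk0 (R * R + 1) hc0 with hcdef
  obtain ⟨w, hw⟩ := exists_ne (0 : E)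
  have e2 : ∀ (a b : GG) (u : E), π a (π b u) = π (a * b) u := by
    intro a b u; rw [map_mul]; rfl
  have h1 : d c • d c • w = d (c * c) • w + (2 : ℝ) • w := by
    rw [← hd (c * c) w, ← hd c (d c • w), ← hd c w, map_add, map_add, e2, e2, e2, e2, mul_inv_cancel,
      inv_mul_cancel, ← map_mul dR, ← _root_.mul_inv_rev, ← map_mul dR, map_one]
    change π (dR (c * c)) w + w + (w + π (dR (c * c))⁻¹ w) = _
    rw [two_smul]
    abel
  rw [smul_smul, ← add_smul] at h1
  have h2 : d c * d c = d (c * c) + 2 := smul_left_injective ℝ hw h1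
  nlinarith [sq_nonneg (d (c * c) + 1)]

end Disc

noncomputable section Final

/-- The equivalence of (i) and (ii) fails. -/
theorem result : ∃ (G : Type) (_ : Group G) (_ : TopologicalSpace G) (ρ : G →* GLn (Fin 2))
    (H : Subgroup G) (μ : Measure (HomSpace H)) (Γ : Type) (_ : Group Γ) (ι : Γ →* G),
    IsReductivePair ρ H ∧ IsInvariantRadon μ ∧ Group.FG Γ ∧ Function.Injective ι ∧
    IsDiscontinuousGroup H ι.range ∧ StableUnderSmallDeformations H ι ∧
    NontrivialDeformations ι ∧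
    {l : Chr ρ H | IsStableSpectrum μ ι l}.Infinite ∧ ¬ DiscNonempty μ :=
  ⟨GG, inferInstance, inferInstance, GG.subtype, ⊥, mu, DihedralGroup 0, inferInstance, dih two,
    reductivePair, invariantRadon_mu, fg_dih, dih_injective, discontinuous_dih, stable_dih,
    deform_dih, infinite_stable, disc_empty⟩

end Final

end Pool.Agent.Results.MP_99bfa4_al.Counterexample
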